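import Pool.Agent.helper62.MS.SpecA
import Pool.Agent.helper6.RS.INB

/-!
# Row ms:INV (MP_07c750_an)
-/

open scoped MatrixGroups ContDiff Topology UpperHalfPlane ComplexConjugate
open UpperHalfPlane MeasureTheory Filter Set

set_option autoImplicit false

namespace Pool.Agent.MS

open Pool.Agent.RS

theorem INV_qn (F : Set ℍ) (c : ℍ → ℂ) (r : ℝ) (φ : ℍ → ℂ) : 0 ≤ qn F c r φ :=
  integral_nonneg (fun g => by positivity)

theorem INV_sq {x y : ℝ} (hx : 0 ≤ x) (hy : 0 ≤ y) : Real.sqrt x * Real.sqrt y ≤ x + y := by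
  have h1 := Real.sq_sqrt hx
  have h2 := Real.sq_sqrt hy
  nlinarith [sq_nonneg (Real.sqrt x - Real.sqrt y), Real.sqrt_nonneg x, Real.sqrt_nonneg y]

theorem INV_proof (hGLC : GLC_stmt) (hGFD : GFD_stmt) (hGBD : GBD_stmt) (hGWB : GWB_stmt) (hBK3 : BK3_stmt)
    (hCV1 : CV1_stmt) (hFL0 : FL0_stmt) (hGR2 : GR2_stmt) (hINA : INA_stmt) : INV_stmt := by
  intro Γ F β α hΓ hF hβ hα
  have hc : TB (1 / 4) (pc β α) := (hCV1.2.2 (1 / 4) α β hα.1 hβ.1).1
  have hcr : ∀ z, conj (pc β α z) = pc β α z := fun z => Complex.conj_ofReal _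
  obtain ⟨K, hK, hqS⟩ := INB_qS hBK3 hCV1 hFL0 hGR2 Γ F hΓ hF _ hc
  refine ⟨20 * K + 1, 1, by linarith, le_rfl,
    fun r φ hr hφ Ψ Ψa Ψn Ψl B hSF hb0 hbn hbl t t' ht htt => ?_⟩
  have hr0 : 0 < r := by linarith
  have hB : 0 ≤ B := (abs_nonneg _).trans (hbn 1)
  obtain ⟨-, -, -, -, -, -, -, -, -, -, hAA, -, -, -, -, -, -, hNA, hLA, -⟩ := hGLC
  have ha0 : aM 0 = 1 := by
    have h := hAA 0 0
    rw [add_zero] at h
    exact (left_eq_mul.1 h)
  have hcomm : ∀ s u : ℝ, aM s * aM u = aM u * aM s := fun s u => by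
    rw [← hAA, ← hAA, add_comm]
  -- derivatives of the translates
  have dA : ∀ (u : ℝ) (g : SL(2, ℝ)), HasDerivAt (fun τ : ℝ => Ψ (g * aM τ * aM u)) (Ψa (g * aM u)) 0 := by
    intro u g
    have h1 := hSF.da (g * aM u)
    have h2 : (fun τ : ℝ => Ψ (g * aM u * aM τ)) = fun τ : ℝ => Ψ (g * aM τ * aM u) := by
      funext τ
      rw [mul_assoc, mul_assoc, hcomm]
    rwa [h2] at h1
  have dN : ∀ (u : ℝ) (g : SL(2, ℝ)),
      HasDerivAt (fun x : ℝ => Ψ (g * nM x * aM u)) (Real.exp (-u) * Ψn (g * aM u)) 0 := by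
    intro u g
    have h1 : HasDerivAt (fun x : ℝ => Real.exp (-u) * x) (Real.exp (-u)) 0 := by
      have := (hasDerivAt_id (0 : ℝ)).const_mul (Real.exp (-u))
      rwa [mul_one] at this
    have h2 : HasDerivAt (fun y : ℝ => Ψ (g * aM u * nM y)) (Ψn (g * aM u)) (Real.exp (-u) * 0) := by
      rw [mul_zero]
      exact hSF.dn _
    have h3 := HasDerivAt.comp (0 : ℝ) h2 h1
    have h4 : ((fun y : ℝ => Ψ (g * aM u * nM y)) ∘ fun x : ℝ => Real.exp (-u) * x) =
        fun x : ℝ => Ψ (g * nM x * aM u) := by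
      funext x
      show Ψ (g * aM u * nM (Real.exp (-u) * x)) = Ψ (g * nM x * aM u)
      rw [mul_assoc, mul_assoc, hNA]
    rw [h4, mul_comm] at h3
    exact h3
  have dL : ∀ (u : ℝ) (g : SL(2, ℝ)),
      HasDerivAt (fun x : ℝ => Ψ (g * lM x * aM u)) (Real.exp u * Ψl (g * aM u)) 0 := by
    intro u g
    have h1 : HasDerivAt (fun x : ℝ => Real.exp u * x) (Real.exp u) 0 := by
      have := (hasDerivAt_id (0 : ℝ)).const_mul (Real.exp u)
      rwa [mul_one] at this
    have h2 : HasDerivAt (fun y : ℝ => Ψ (g * aM u * lM y)) (Ψl (g * aM u)) (Real.exp u * 0) := by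
      rw [mul_zero]
      exact hSF.dl _
    have h3 := HasDerivAt.comp (0 : ℝ) h2 h1
    have h4 : ((fun y : ℝ => Ψ (g * aM u * lM y)) ∘ fun x : ℝ => Real.exp u * x) =
        fun x : ℝ => Ψ (g * lM x * aM u) := by
      funext x
      show Ψ (g * aM u * lM (Real.exp u * x)) = Ψ (g * lM x * aM u)
      rw [mul_assoc, mul_assoc, hLA]
    rw [h4, mul_comm] at h3
    exact h3
  -- the flow
  have hder : ∀ (g : SL(2, ℝ)) (u : ℝ), HasDerivAt (fun u => Ψ (g * aM u)) (Ψa (g * aM u)) u := by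
    intro g u
    have h1 := dA u g
    have h2 : (fun τ : ℝ => Ψ (g * aM τ * aM u)) = fun τ : ℝ => (fun u => Ψ (g * aM u)) (τ + u) := by
      funext τ
      show Ψ (g * aM τ * aM u) = Ψ (g * aM (τ + u))
      rw [hAA, mul_assoc]
    rw [h2] at h1
    have h3 : HasDerivAt (fun τ => (fun u => Ψ (g * aM u)) (τ + u)) (Ψa (g * aM u)) (u - u) := by
      rw [sub_self]; exact h1
    have h4 := HasDerivAt.comp_sub_const u u h3
    have h5 : (fun x => (fun τ => (fun u => Ψ (g * aM u)) (τ + u)) (x - u)) = fun u => Ψ (g * aM u) := by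
      funext x
      show Ψ (g * aM (x - u + u)) = Ψ (g * aM x)
      rw [sub_add_cancel]
    rwa [h5] at h4
  -- the packet
  have hcc : Continuous (pc β α) := (hFL0.1 _ _ hc).2.2.2.2.2.2
  have hcs : HasCompactSupport (pc β α) := (hFL0.1 _ _ hc).2.2.2.2.2.1
  have hφC : InvC Γ φ := ⟨INB_cont φ hφ.1, hφ.2.1⟩
  have hW : InvG Γ (Wf (pk r (pc β α)) φ) :=
    (hGWB Γ (pk r (pc β α)) φ hΓ (INB_pk r _ hcc) (INB_pks r _ hcs) hφC).1
  obtain ⟨m, hm⟩ := (hGBD Γ ℂ (Wf (pk r (pc β α)) φ) hΓ hW).1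
  obtain ⟨ma, hma⟩ := (hGBD Γ ℝ Ψa hΓ hSF.ia).1
  have hma0 : 0 ≤ ma := (norm_nonneg _).trans (hma 1)
  have hP : Continuous (fun g => ‖Wf (pk r (pc β α)) φ g‖ ^ 2) := hW.1.norm.pow 2
  have hPm : ∀ g, |(‖Wf (pk r (pc β α)) φ g‖ ^ 2)| ≤ m ^ 2 := by
    intro g
    rw [abs_of_nonneg (by positivity)]
    exact pow_le_pow_left₀ (norm_nonneg _) (hm g) 2
  have hdom := (hGFD Γ F hΓ hF).1
  have hderI : ∀ u : ℝ, HasDerivAt
      (fun u => iR F (fun g => Ψ (g * aM u) * ‖Wf (pk r (pc β α)) φ g‖ ^ 2))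
      (iR F (fun g => Ψa (g * aM u) * ‖Wf (pk r (pc β α)) φ g‖ ^ 2)) u := fun u =>
    INB_der (dG F) hdom.2.2.1 Ψ Ψa (fun g => ‖Wf (pk r (pc β α)) φ g‖ ^ 2) (1 + ma) (m ^ 2)
      hSF.i0.1 hSF.ia.1 hP (fun g => (hb0 g).trans (by linarith))
      (fun g => ((Real.norm_eq_abs _).symm.le.trans (hma g)).trans (by linarith)) hPm hder u
  have hn0 : 0 ≤ nn F φ := integral_nonneg (fun z => by positivity)
  -- the bound for the derivative
  have hbd : ∀ u : ℝ, |r * iR F (fun g => Ψa (g * aM u) * ‖Wf (pk r (pc β α)) φ g‖ ^ 2)| ≤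
      20 * K * nn F φ * (B * Real.exp (-u) + (1 + B * Real.exp u) / r) := by
    intro u
    have h1 := hINA Γ F (pc β α) r r φ (fun g => Ψ (g * aM u)) (fun g => Ψa (g * aM u))
      (fun g => Real.exp (-u) * Ψn (g * aM u)) (fun g => Real.exp u * Ψl (g * aM u))
      1 (Real.exp (-u) * B) (Real.exp u * B) hΓ hF hc hcr hr (by rw [sub_self, abs_zero]; exact zero_le_one) hφ
      (by
        have h := INB_tr Γ _ hSF.i0 (aM u) 1
        simp only [one_mul] at h
        exact h)
      (by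
        have h := INB_tr Γ _ hSF.ia (aM u) 1
        simp only [one_mul] at h
        exact h)
      (INB_tr Γ _ hSF.i1 (aM u) _) (INB_tr Γ _ hSF.il (aM u) _)
      (dA u) (dN u) (dL u)
      (fun g => hb0 _)
      (fun g => by
        rw [abs_mul, abs_of_pos (Real.exp_pos _)]
        exact mul_le_mul_of_nonneg_left (hbn _) (Real.exp_pos _).le)
      (fun g => by
        rw [abs_mul, abs_of_pos (Real.exp_pos _)]
        exact mul_le_mul_of_nonneg_left (hbl _) (Real.exp_pos _).le)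
    have e1 := Real.exp_pos u
    have e2 := Real.exp_pos (-u)
    have hq := hqS r r φ hr (by rw [sub_self, abs_zero]; positivity) hφ
    have hs : Real.sqrt (qn F (pc β α) r φ) * Real.sqrt (qn F (xm (pc β α)) r φ) ≤ K / r * nn F φ := by
      refine (INV_sq (INV_qn _ _ _ _) (INV_qn _ _ _ _)).trans (le_trans ?_ hq)
      unfold qS
      have a1 := INV_qn F (px (pc β α)) r φ
      have a2 := INV_qn F (xm (px (pc β α))) r φ
      have a3 := INV_qn F (kW (pc β α)) r φ
      have a4 := INV_qn F (kW (px (pc β α))) r φ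
      have a5 := INV_qn F (QU.lap (pc β α)) r φ
      linarith
    have h2 : |iR F (fun g => Ψa (g * aM u) * ‖Wf (pk r (pc β α)) φ g‖ ^ 2)| ≤
        Real.exp (-u) * B * (K / r * nn F φ) + 20 / r * (1 + Real.exp u * B) * (K / r * nn F φ) :=
      h1.trans (add_le_add (mul_le_mul_of_nonneg_left hs (by positivity))
        (mul_le_mul_of_nonneg_left hq (by positivity)))
    rw [abs_mul, abs_of_pos hr0]
    refine (mul_le_mul_of_nonneg_left h2 hr0.le).trans ?_
    have h3 : r * (Real.exp (-u) * B * (K / r * nn F φ) + 20 / r * (1 + Real.exp u * B) * (K / r * nn F φ)) =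
        K * nn F φ * (B * Real.exp (-u)) + 20 * K * nn F φ * ((1 + B * Real.exp u) / r) := by
      field_simp
    rw [h3, mul_add (20 * K * nn F φ)]
    have h4 : K * nn F φ * (B * Real.exp (-u)) ≤ 20 * K * nn F φ * (B * Real.exp (-u)) := by
      refine mul_le_mul_of_nonneg_right ?_ (by positivity)
      have := mul_nonneg hK.le hn0
      linarith
    linarith
  -- integration
  have hmv := image_norm_le_of_norm_deriv_right_le_deriv_boundary
    (f := fun u => r * iR F (fun g => Ψ (g * aM u) * ‖Wf (pk r (pc β α)) φ g‖ ^ 2) -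
      r * iR F (fun g => Ψ (g * aM t) * ‖Wf (pk r (pc β α)) φ g‖ ^ 2))
    (f' := fun u => r * iR F (fun g => Ψa (g * aM u) * ‖Wf (pk r (pc β α)) φ g‖ ^ 2))
    (a := t) (b := t') (B := fun u => 20 * K * nn F φ * (B * (Real.exp (-t) - Real.exp (-u)) +
      ((u - t) + B * (Real.exp u - Real.exp t)) / r))
    (B' := fun u => 20 * K * nn F φ * (B * Real.exp (-u) + (1 + B * Real.exp u) / r))
    (fun x _ => (((hderI x).const_mul r).sub_const _).continuousAt.continuousWithinAt)
    (fun x _ => (((hderI x).const_mul r).sub_const _).hasDerivWithinAt)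
    (by simp)
    (fun x => by
      have e1 : HasDerivAt (fun t : ℝ => Real.exp (-t)) (-Real.exp (-x)) x := by
        have h := (hasDerivAt_neg x).exp
        simpa using h
      have e2 := (e1.const_sub (Real.exp (-t))).const_mul B
      have e3 := ((((hasDerivAt_id x).sub_const t).add
        (((Real.hasDerivAt_exp x).sub_const (Real.exp t)).const_mul B))).div_const r
      have e4 := (e2.add e3).const_mul (20 * K * nn F φ)
      rw [neg_neg] at e4
      exact e4)
    (fun x _ => by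
      rw [Real.norm_eq_abs]
      exact hbd x)
    (right_mem_Icc.2 htt)
  rw [Real.norm_eq_abs] at hmv
  refine hmv.trans ?_
  have e1 : B * (Real.exp (-t) - Real.exp (-t')) + ((t' - t) + B * (Real.exp t' - Real.exp t)) / r ≤
      B * Real.exp (-t) + (t' + B * Real.exp t') / r := by
    have a1 : B * (Real.exp (-t) - Real.exp (-t')) ≤ B * Real.exp (-t) :=
      mul_le_mul_of_nonneg_left (by linarith [Real.exp_pos (-t')]) hB
    have a2 : (t' - t) + B * (Real.exp t' - Real.exp t) ≤ t' + B * Real.exp t' := by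
      have := mul_le_mul_of_nonneg_left (show Real.exp t' - Real.exp t ≤ Real.exp t' by linarith [Real.exp_pos t]) hB
      linarith
    exact add_le_add a1 (div_le_div_of_nonneg_right a2 hr0.le)
  have ht'0 : 0 ≤ t' := ht.trans htt
  have e2 : 0 ≤ B * Real.exp (-t) + (t' + B * Real.exp t') / r := by positivity
  have e3 := mul_le_mul_of_nonneg_left e1 (show 0 ≤ 20 * K * nn F φ by positivity)
  refine e3.trans ?_
  have e4 : (20 * K + 1) * (B * Real.exp (-t) + (t' + B * Real.exp t') / r) * nn F φ =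
      20 * K * nn F φ * (B * Real.exp (-t) + (t' + B * Real.exp t') / r) +
        (B * Real.exp (-t) + (t' + B * Real.exp t') / r) * nn F φ := by ring
  rw [e4]
  have := mul_nonneg e2 hn0
  linarith

end Pool.Agent.MS
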