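import Mathlib

set_option linter.all false

/-! abstract part of module A2 of MP_899162_gt. -/

open Filter Topology

namespace Pool.Agent.helper43.MS

section A2abs

variable {V H : Type*} [AddCommGroup V] [Module ℝ V] [NormedAddCommGroup H]
    [InnerProductSpace ℝ H] (J : V →ₗ[ℝ] H) (q : V →ₗ[ℝ] V →ₗ[ℝ] ℝ)

lemma a2_cs (hsymm : ∀ u v, q u v = q v u) (hnonneg : ∀ u, 0 ≤ q u u) (u v : V) :
    |q u v| ≤ √(q u u) * √(q v v) := by
  have h1 : ∀ t : ℝ, 0 ≤ q v v * (t * t) + (2 * q u v) * t + q u u := by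
    intro t
    have h2 := hnonneg (u + t • v)
    simp only [map_add, map_smul, LinearMap.add_apply, LinearMap.smul_apply, smul_eq_mul] at h2
    rw [hsymm v u] at h2
    linarith
  have h3 := discrim_le_zero h1
  rw [discrim] at h3
  have h4 : (q u v) ^ 2 ≤ q u u * q v v := by nlinarith
  rw [← Real.sqrt_mul (hnonneg u)]
  exact Real.abs_le_sqrt h4

/-- the form on a `J`-convergent, `q`-Cauchy sequence which represents `a`. -/
lemma a2_limit (hsymm : ∀ u v, q u v = q v u) (hnonneg : ∀ u, 0 ≤ q u u) {w : ℕ → V} {W A : H}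
    (hJ : Tendsto (fun k => J (w k)) atTop (𝓝 W))
    (hq : Tendsto (fun kl : ℕ × ℕ => q (w kl.1 - w kl.2) (w kl.1 - w kl.2))
      (atTop ×ˢ atTop) (𝓝 0))
    (hA : ∀ v, Tendsto (fun k => q (w k) v) atTop (𝓝 (inner ℝ A (J v)))) :
    Tendsto (fun k => q (w k) (w k)) atTop (𝓝 (inner ℝ A W)) := by
  have hAW : Tendsto (fun k => inner ℝ A (J (w k))) atTop (𝓝 (inner ℝ A W)) :=
    tendsto_const_nhds.inner hJ
  -- square roots tend to zero
  have hq' : Tendsto (fun kl : ℕ × ℕ => √(q (w kl.1 - w kl.2) (w kl.1 - w kl.2)))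
      (atTop ×ˢ atTop) (𝓝 0) := by
    have := (Real.continuous_sqrt.tendsto 0).comp hq
    rwa [Real.sqrt_zero] at this
  have hsmall : ∀ ε : ℝ, 0 < ε → ∃ K : ℕ, ∀ k ≥ K, ∀ l ≥ K,
      √(q (w k - w l) (w k - w l)) ≤ ε := by
    intro ε hε
    have h1 := hq'.eventually (Iic_mem_nhds hε)
    rw [prod_atTop_atTop_eq] at h1
    obtain ⟨⟨a, b⟩, hab⟩ := eventually_atTop.mp h1
    refine ⟨max a b, fun k hk l hl => ?_⟩
    exact hab (k, l) ⟨(le_max_left _ _).trans hk, (le_max_right _ _).trans hl⟩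
  have htri : ∀ x y : V, √(q x x) ≤ √(q (x - y) (x - y)) + √(q y y) := by
    intro x y
    have h1 : q x x = q (x - y) (x - y) + 2 * q (x - y) y + q y y := by
      have h2 : x = (x - y) + y := by abel
      conv_lhs => rw [h2]
      simp only [map_add, LinearMap.add_apply]
      rw [hsymm y (x - y)]
      ring
    have h3 := (le_abs_self _).trans (a2_cs q hsymm hnonneg (x - y) y)
    apply Real.sqrt_le_iff.mpr
    refine ⟨by positivity, ?_⟩
    have h4 := Real.sq_sqrt (hnonneg (x - y))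
    have h5 := Real.sq_sqrt (hnonneg y)
    nlinarith
  obtain ⟨K₀, hK₀⟩ := hsmall 1 one_pos
  set B : ℝ := 1 + √(q (w K₀) (w K₀)) with hB
  have hBpos : 0 < B := by positivity
  have hbound : ∀ k ≥ K₀, √(q (w k) (w k)) ≤ B := by
    intro k hk
    have := htri (w k) (w K₀)
    have := hK₀ k hk K₀ le_rfl
    linarith
  have hdiff : Tendsto (fun k => q (w k) (w k) - inner ℝ A (J (w k))) atTop (𝓝 0) := by
    rw [Metric.tendsto_atTop]
    intro ε hε
    obtain ⟨K, hK⟩ := hsmall (ε / (2 * B)) (by positivity)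
    refine ⟨max K K₀, fun k hk => ?_⟩
    have hkK : K ≤ k := (le_max_left _ _).trans hk
    have hkK₀ : K₀ ≤ k := (le_max_right _ _).trans hk
    rw [Real.dist_0_eq_abs]
    have h1 : ∀ l ≥ K, |q (w k) (w k) - q (w l) (w k)| ≤ ε / 2 := by
      intro l hl
      have h2 : q (w k) (w k) - q (w l) (w k) = q (w k - w l) (w k) := by
        rw [map_sub, LinearMap.sub_apply]
      rw [h2]
      calc |q (w k - w l) (w k)| ≤ √(q (w k - w l) (w k - w l)) * √(q (w k) (w k)) :=
            a2_cs q hsymm hnonneg _ _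
        _ ≤ ε / (2 * B) * B := by
            apply mul_le_mul (hK k hkK l hl) (hbound k hkK₀) (Real.sqrt_nonneg _) (by positivity)
        _ = ε / 2 := by field_simp
    have h3 : Tendsto (fun l => |q (w k) (w k) - q (w l) (w k)|) atTop
        (𝓝 |q (w k) (w k) - inner ℝ A (J (w k))|) :=
      (tendsto_const_nhds.sub (hA (w k))).abs
    have h4 : |q (w k) (w k) - inner ℝ A (J (w k))| ≤ ε / 2 :=
      le_of_tendsto h3 (eventually_atTop.mpr ⟨K, h1⟩)
    linarith
  have := hdiff.add hAW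
  simpa using this

/-- lower bound of the form by eigenvalues. -/
lemma a2_lower (hsymm : ∀ u v, q u v = q v u) (hnonneg : ∀ u, 0 ≤ q u u)
    {I : Finset H} {lam : H → ℝ} (hI : Orthonormal ℝ ((↑) : I → H))
    (hf : ∀ f ∈ I, ∃ u : ℕ → V, Tendsto (fun k => J (u k)) atTop (𝓝 f) ∧
        Tendsto (fun kl : ℕ × ℕ => q (u kl.1 - u kl.2) (u kl.1 - u kl.2))
          (atTop ×ˢ atTop) (𝓝 0) ∧
        ∀ v, Tendsto (fun k => q (u k) v) atTop (𝓝 (lam f * inner ℝ f (J v)))) (v : V) :
    ∑ f ∈ I, lam f * (inner ℝ f (J v)) ^ 2 ≤ q v v := by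
  classical
  choose! u hu1 hu2 hu3 using hf
  set c : H → ℝ := fun f => inner ℝ f (J v) with hc
  set w : ℕ → V := fun k => ∑ f ∈ I, c f • u f k with hw
  set W : H := ∑ f ∈ I, c f • f with hW
  set A : H := ∑ f ∈ I, (c f * lam f) • f with hA
  have hJ : Tendsto (fun k => J (w k)) atTop (𝓝 W) := by
    have : (fun k => J (w k)) = fun k => ∑ f ∈ I, c f • J (u f k) := by
      funext k
      simp only [hw, map_sum, map_smul]
    rw [this]
    exact tendsto_finsetSum _ fun f hf => (hu1 f hf).const_smul _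
  have hAv : ∀ v', Tendsto (fun k => q (w k) v') atTop (𝓝 (inner ℝ A (J v'))) := by
    intro v'
    have h1 : (fun k => q (w k) v') = fun k => ∑ f ∈ I, c f * q (u f k) v' := by
      funext k
      simp only [hw, map_sum, map_smul, LinearMap.sum_apply, LinearMap.smul_apply, smul_eq_mul]
    have h2 : inner ℝ A (J v') = ∑ f ∈ I, c f * (lam f * inner ℝ f (J v')) := by
      rw [hA, sum_inner]
      refine Finset.sum_congr rfl fun f _ => ?_
      rw [real_inner_smul_left]
      ring
    rw [h1, h2]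
    exact tendsto_finsetSum _ fun f hf => (hu3 f hf v').const_mul _
  have hq : Tendsto (fun kl : ℕ × ℕ => q (w kl.1 - w kl.2) (w kl.1 - w kl.2))
      (atTop ×ˢ atTop) (𝓝 0) := by
    have h1 : Tendsto (fun kl : ℕ × ℕ => ∑ f ∈ I, ∑ g ∈ I, |c f| * |c g| *
        (√(q (u f kl.1 - u f kl.2) (u f kl.1 - u f kl.2))
          * √(q (u g kl.1 - u g kl.2) (u g kl.1 - u g kl.2)))) (atTop ×ˢ atTop) (𝓝 0) := by
      have h0 : (0 : ℝ) = ∑ f ∈ I, ∑ g ∈ I, |c f| * |c g| * (0 * 0) := by simp
      rw [h0]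
      refine tendsto_finsetSum _ fun f hf => tendsto_finsetSum _ fun g hg => ?_
      have h2 : ∀ f ∈ I, Tendsto (fun kl : ℕ × ℕ =>
          √(q (u f kl.1 - u f kl.2) (u f kl.1 - u f kl.2))) (atTop ×ˢ atTop) (𝓝 0) := by
        intro f hf
        have := (Real.continuous_sqrt.tendsto 0).comp (hu2 f hf)
        rwa [Real.sqrt_zero] at this
      exact ((h2 f hf).mul (h2 g hg)).const_mul _
    refine squeeze_zero (fun kl => hnonneg _) (fun kl => ?_) h1
    have h3 : w kl.1 - w kl.2 = ∑ f ∈ I, c f • (u f kl.1 - u f kl.2) := by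
      simp only [hw, smul_sub, Finset.sum_sub_distrib]
    have h35 : q (∑ f ∈ I, c f • (u f kl.1 - u f kl.2)) (∑ f ∈ I, c f • (u f kl.1 - u f kl.2))
        = ∑ f ∈ I, ∑ g ∈ I, c f * (c g * q (u f kl.1 - u f kl.2) (u g kl.1 - u g kl.2)) := by
      rw [map_sum q, LinearMap.sum_apply]
      refine Finset.sum_congr rfl fun f _ => ?_
      rw [map_smul q, LinearMap.smul_apply, map_sum, smul_eq_mul, Finset.mul_sum]
      refine Finset.sum_congr rfl fun g _ => ?_
      rw [map_smul, smul_eq_mul]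
    rw [h3, h35]
    refine Finset.sum_le_sum fun f _ => Finset.sum_le_sum fun g _ => ?_
    have h4 := a2_cs q hsymm hnonneg (u f kl.1 - u f kl.2) (u g kl.1 - u g kl.2)
    calc c f * (c g * q (u f kl.1 - u f kl.2) (u g kl.1 - u g kl.2))
        ≤ |c f * (c g * q (u f kl.1 - u f kl.2) (u g kl.1 - u g kl.2))| := le_abs_self _
      _ = |c f| * |c g| * |q (u f kl.1 - u f kl.2) (u g kl.1 - u g kl.2)| := by
          rw [abs_mul, abs_mul]; ring
      _ ≤ _ := by gcongr
  have hlim := a2_limit J q hsymm hnonneg hJ hq hAv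
  have hAv' : inner ℝ A (J v) = ∑ f ∈ I, lam f * c f ^ 2 := by
    rw [hA, sum_inner]
    refine Finset.sum_congr rfl fun f _ => ?_
    rw [real_inner_smul_left, hc]
    ring
  have hAW : inner ℝ A W = ∑ f ∈ I, lam f * c f ^ 2 := by
    rw [hA, hW, sum_inner]
    refine Finset.sum_congr rfl fun f hf => ?_
    rw [real_inner_smul_left, inner_sum]
    have h5 : ∀ g ∈ I, inner ℝ f (c g • g) = if g = f then c f else 0 := by
      intro g hg
      rw [real_inner_smul_right]
      have h6 := (orthonormal_iff_ite.mp hI) ⟨f, hf⟩ ⟨g, hg⟩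
      simp only [Subtype.mk.injEq] at h6
      rw [h6]
      by_cases h7 : g = f
      · subst h7; simp
      · rw [if_neg (fun h => h7 h.symm), if_neg h7, mul_zero]
    rw [Finset.sum_congr rfl h5, Finset.sum_ite_eq' I f, if_pos hf]
    ring
  have hfin : Tendsto (fun k => q (v - w k) (v - w k)) atTop
      (𝓝 (q v v - 2 * inner ℝ A (J v) + inner ℝ A W)) := by
    have h6 : (fun k => q (v - w k) (v - w k)) = fun k => q v v - 2 * q (w k) v + q (w k) (w k) := by
      funext k
      simp only [map_sub, LinearMap.sub_apply]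
      rw [hsymm v (w k)]
      ring
    rw [h6]
    exact (tendsto_const_nhds.sub ((hAv v).const_mul 2)).add hlim
  have h7 := ge_of_tendsto' hfin (fun k => hnonneg _)
  rw [hAv', hAW] at h7
  have : ∑ f ∈ I, lam f * c f ^ 2 ≤ q v v := by linarith
  exact this

/-- abstract form of A2. -/
theorem a2_abstract [CompleteSpace H] (hsymm : ∀ u v, q u v = q v u) (hnonneg : ∀ u, 0 ≤ q u u)
    {s : Set H} {lam : H → ℝ} (hs : Orthonormal ℝ ((↑) : s → H))
    (hspan : (Submodule.span ℝ s).topologicalClosure = ⊤)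
    (hfin : ∀ Λ : ℝ, {f ∈ s | lam f ≤ Λ}.Finite)
    (hf : ∀ f ∈ s, ∃ u : ℕ → V, Tendsto (fun k => J (u k)) atTop (𝓝 f) ∧
        Tendsto (fun kl : ℕ × ℕ => q (u kl.1 - u kl.2) (u kl.1 - u kl.2))
          (atTop ×ˢ atTop) (𝓝 0) ∧
        ∀ v, Tendsto (fun k => q (u k) v) atTop (𝓝 (lam f * inner ℝ f (J v))))
    {v : ℕ → V} {C : ℝ} (hE : ∀ k, q (v k) (v k) ≤ C) (h1 : ∀ k, 1 ≤ ‖J (v k)‖ ^ 2)
    (hC : ∀ k, ‖J (v k)‖ ^ 2 ≤ C) (horth : ∀ k l, k ≠ l → inner ℝ (J (v k)) (J (v l)) = 0) :
    False := by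
  classical
  have hC1 : 1 ≤ C := (h1 0).trans (hC 0)
  have hlam : ∀ f ∈ s, 0 ≤ lam f := by
    intro f hfs
    obtain ⟨u, hu1, hu2, hu3⟩ := hf f hfs
    have h2 := a2_limit J q hsymm hnonneg (A := lam f • f) hu1 hu2 (fun v => by
      rw [real_inner_smul_left]; exact hu3 v)
    have h3 : inner ℝ (lam f • f) f = lam f := by
      rw [real_inner_smul_left, real_inner_self_eq_norm_sq, hs.1 ⟨f, hfs⟩]
      ring
    rw [h3] at h2
    exact ge_of_tendsto' h2 (fun k => hnonneg _)
  set Λ : ℝ := 2 * C with hΛ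
  have hΛ0 : 0 < Λ := by linarith
  set P : Finset H := (hfin Λ).toFinset with hP
  have hPs : ∀ f ∈ P, f ∈ s := fun f hf => ((hfin Λ).mem_toFinset.mp hf).1
  -- Parseval
  let b : HilbertBasis s ℝ H := HilbertBasis.mk hs (by
    rw [Subtype.range_coe]; exact hspan.ge)
  have hb : ∀ i : s, b i = i := by
    intro i
    have := HilbertBasis.coe_mk hs (by rw [Subtype.range_coe]; exact hspan.ge)
    exact congrFun this i
  have hpars : ∀ x : H, HasSum (fun i : s => (inner ℝ (i : H) x) ^ 2) (‖x‖ ^ 2) := by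
    intro x
    have := b.hasSum_inner_mul_inner x x
    simp only [hb] at this
    rw [real_inner_self_eq_norm_sq] at this
    have h2 : (fun i : s => (inner ℝ (i : H) x) ^ 2)
        = fun i : s => inner ℝ x (i : H) * inner ℝ (i : H) x := by
      funext i
      rw [real_inner_comm x (i : H)]
      ring
    rw [h2]
    exact this
  -- the low part carries half of the norm
  have hlow : ∀ k, 1 / 2 ≤ ∑ f ∈ P, (inner ℝ f (J (v k))) ^ 2 := by
    intro k
    have h3 : ∀ I : Finset s, ∑ i ∈ I, (inner ℝ (i : H) (J (v k))) ^ 2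
        ≤ ∑ f ∈ P, (inner ℝ f (J (v k))) ^ 2 + 1 / 2 := by
      intro I
      have h4 : ∑ i ∈ I, (inner ℝ (i : H) (J (v k))) ^ 2
          = ∑ f ∈ I.map (Function.Embedding.subtype _), (inner ℝ f (J (v k))) ^ 2 := by
        rw [Finset.sum_map]; rfl
      rw [h4]
      set I' := I.map (Function.Embedding.subtype (· ∈ s)) with hI'
      have hI's : ∀ f ∈ I', f ∈ s := by
        intro f hf
        obtain ⟨i, _, rfl⟩ := Finset.mem_map.mp hf
        exact i.2
      rw [← Finset.sum_filter_add_sum_filter_not I' (fun f => lam f ≤ Λ)]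
      apply add_le_add
      · apply Finset.sum_le_sum_of_subset_of_nonneg
        · intro f hf
          obtain ⟨h5, h6⟩ := Finset.mem_filter.mp hf
          exact (hfin Λ).mem_toFinset.mpr ⟨hI's f h5, h6⟩
        · intro f _ _
          positivity
      · set Q := I'.filter (fun f => ¬ lam f ≤ Λ) with hQ
        have hQs : ∀ f ∈ Q, f ∈ s := fun f hf => hI's f (Finset.mem_filter.mp hf).1
        have hQo : Orthonormal ℝ ((↑) : Q → H) := by
          have := hs.comp (fun f : Q => (⟨f.1, hQs f.1 f.2⟩ : s)) (by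
            intro x y hxy
            simp only [Subtype.mk.injEq] at hxy
            exact Subtype.ext hxy)
          exact this
        have h5 := a2_lower J q hsymm hnonneg (lam := lam) hQo (fun f hfQ => hf f (hQs f hfQ)) (v k)
        have h6 : Λ * ∑ f ∈ Q, (inner ℝ f (J (v k))) ^ 2
            ≤ ∑ f ∈ Q, lam f * (inner ℝ f (J (v k))) ^ 2 := by
          rw [Finset.mul_sum]
          refine Finset.sum_le_sum fun f hf => ?_
          have h7 := (Finset.mem_filter.mp hf).2
          push Not at h7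
          gcongr
        have h8 : Λ * ∑ f ∈ Q, (inner ℝ f (J (v k))) ^ 2 ≤ C := h6.trans (h5.trans (hE k))
        rw [hΛ] at h8
        nlinarith
    have h9 := le_of_tendsto' (hpars (J (v k))) h3
    linarith [h1 k]
  -- an orthonormal sequence tends weakly to zero
  set e : ℕ → H := fun k => (‖J (v k)‖)⁻¹ • J (v k) with he
  have hnorm : ∀ k, 0 < ‖J (v k)‖ := by
    intro k
    have := h1 k
    by_contra h
    have h2 : ‖J (v k)‖ = 0 := le_antisymm (not_lt.mp h) (norm_nonneg _)
    rw [h2] at this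
    norm_num at this
  have heo : Orthonormal ℝ e := by
    constructor
    · intro k
      rw [he]
      simp only
      rw [norm_smul, norm_inv, norm_norm, inv_mul_cancel₀ (hnorm k).ne']
    · intro k l hkl
      rw [he]
      simp only
      rw [real_inner_smul_left, real_inner_smul_right, horth k l hkl]
      ring
  have hweak : ∀ f : H, Tendsto (fun k => (inner ℝ f (J (v k))) ^ 2) atTop (𝓝 0) := by
    intro f
    have h2 := heo.inner_products_summable (x := f)
    have h3 := h2.tendsto_atTop_zero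
    have h4 : Tendsto (fun k => C * ‖inner ℝ (e k) f‖ ^ 2) atTop (𝓝 0) := by
      have := h3.const_mul C
      rwa [mul_zero] at this
    refine squeeze_zero (fun k => sq_nonneg _) (fun k => ?_) h4
    have h5 : inner ℝ f (J (v k)) = ‖J (v k)‖ * inner ℝ (e k) f := by
      rw [he]
      simp only
      rw [real_inner_smul_left, ← mul_assoc, mul_inv_cancel₀ (hnorm k).ne', one_mul,
        real_inner_comm]
    rw [h5, mul_pow, Real.norm_eq_abs, sq_abs]
    gcongr
    exact hC k
  have hsumweak : Tendsto (fun k => ∑ f ∈ P, (inner ℝ f (J (v k))) ^ 2) atTop (𝓝 0) := by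
    have h0 : (0 : ℝ) = ∑ f ∈ P, 0 := by simp
    rw [h0]
    exact tendsto_finsetSum _ fun f _ => hweak f
  have := ge_of_tendsto' hsumweak hlow
  norm_num at this

end A2abs

end Pool.Agent.helper43.MS
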