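import Pool.Agent.helper68.MS.Test
import Pool.Agent.helper68.MS.A2abs

set_option linter.all false

/-! module A2 of MP_899162_gt. -/

open Bundle Manifold MeasureTheory Set Filter Topology
open scoped ContDiff ENNReal

namespace Pool.Agent.helper43.MS

section A2
variable {m n : ℕ} {M : Type*} [TopologicalSpace M] [T2Space M] [SecondCountableTopology M]
  [ChartedSpace (E m) M] [IsManifold 𝓘(ℝ, E m) ∞ M] [MeasurableSpace M] [BorelSpace M]
  {N : Type*} [TopologicalSpace N] [ChartedSpace (E n) N] [IsManifold 𝓘(ℝ, E n) ∞ N]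
  [RiemannianBundle (fun q : N => TangentSpace 𝓘(ℝ, E n) q)]
  [IsContMDiffRiemannianBundle 𝓘(ℝ, E n) ∞ (E n) (fun q : N => TangentSpace 𝓘(ℝ, E n) q)]

theorem not_discrete_of_sequence {φ : M → N} (h : IsImm m n φ) {μ : Measure M}
    (hμ : IsRiemVolume m n φ μ) {u : ℕ → M → ℝ} (hu : ∀ k, IsTest m (u k)) {C : ℝ}
    (hE : ∀ k, dirichlet m n φ μ (u k) (u k) ≤ C) (h1 : ∀ k, 1 ≤ ∫ p, u k p ^ 2 ∂μ)
    (hC : ∀ k, ∫ p, u k p ^ 2 ∂μ ≤ C)
    (horth : ∀ k l, k ≠ l → ∫ p, u k p * u l p ∂μ = 0) :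
    ¬ HasDiscreteSpectrum m n φ μ := by
  rintro ⟨s, lam, hs, hspan, hfin, hf⟩
  refine a2_abstract (testJ h hμ) (testQ h hμ) (testQ_symm h hμ) (testQ_nonneg h hμ) hs hspan hfin
    (fun f hfs => (isFriedrichsEigen_iff h hμ f (lam f)).mp (hf f hfs))
    (v := fun k => ⟨u k, hu k⟩) (C := C) hE ?_ ?_ ?_
  · intro k
    rw [norm_testJ_sq]
    exact h1 k
  · intro k
    rw [norm_testJ_sq]
    exact hC k
  · intro k l hkl
    rw [inner_testJ_testJ]
    exact horth k l hkl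

end A2

end Pool.Agent.helper43.MS
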