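import Pool.Agent.helper68.MS.C1
import Pool.Agent.helper68.MS.A2

set_option linter.all false

/-! module C5 of MP_899162_gt: the example has non-discrete spectrum. -/

open Bundle Manifold MeasureTheory Set Filter Topology
open scoped ContDiff ENNReal

namespace Pool.Agent.helper43.MS

lemma Mset_nonempty : Nonempty Mset := by
  refine ⟨⟨!₂[Real.log 2 / 2, 1, 0], ?_⟩⟩
  have : 0 < Real.log 2 := Real.log_pos (by norm_num)
  show 0 < _ ∧ _ < Real.log 2 ∧ 0 < _ ∧ -1 < _ ∧ _ < 1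
  simp
  exact this

lemma integral_phi0 {μ : Measure Mset} (hμ : IsRiemVolume 3 5 phi0 μ) (g : Mset → ℝ)
    (G : E 3 → ℝ) (hG : ∀ p : Mset, g p = G p.1) :
    ∫ p, g p ∂μ = ∫ x in (Mset : Set (E 3)), G x * lamPhi x := by
  obtain ⟨p₀⟩ := Mset_nonempty
  have h1 := hμ.setIntegral isImm_phi0 p₀ (s := (Mset : Set (E 3))) c1_isOpen.measurableSet
    (by rw [target_Mset]) g
  have h2 : (chartAt (E 3) p₀).symm '' (Mset : Set (E 3)) = univ := by
    rw [← target_Mset p₀, OpenPartialHomeomorph.symm_image_target_eq_source, source_Mset]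
  rw [h2, Measure.restrict_univ] at h1
  rw [h1]
  refine setIntegral_congr_fun c1_isOpen.measurableSet fun x hx => ?_
  show g ((chartAt (E 3) p₀).symm x) * _ = G x * lamPhi x
  rw [det_metricM_phi0 p₀ hx, hG, c1_symm_coe p₀ hx]

lemma one_le_lamPhi {x : E 3} (hx : x ∈ Mset) : 1 ≤ lamPhi x := by
  obtain ⟨h1, h2, h3, h4, h5⟩ := hx
  have := Real.one_le_exp (show 0 ≤ 2 * x 0 by linarith)
  have := Real.exp_pos (-(2 * x 1))
  rw [lamPhi]
  linarith

lemma lamPhi_le {x : E 3} (hx : x ∈ Mset) : lamPhi x ≤ 5 := by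
  obtain ⟨h1, h2, h3, h4, h5⟩ := hx
  have k1 : Real.exp (2 * x 0) ≤ 4 := by
    have h6 : Real.exp (2 * x 0) ≤ Real.exp (2 * Real.log 2) :=
      Real.exp_le_exp.mpr (by linarith)
    have h7 : Real.exp (2 * Real.log 2) = 4 := by
      rw [two_mul, Real.exp_add, Real.exp_log (by norm_num)]; norm_num
    linarith
  have k2 : Real.exp (-(2 * x 1)) ≤ 1 := Real.exp_le_one_iff.mpr (by linarith)
  rw [lamPhi]
  linarith

/-- the bump. -/
noncomputable def c5bump : ContDiffBump (0 : E 3) where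
  rIn := 1 / 8
  rOut := 1 / 4
  rIn_pos := by norm_num
  rIn_lt_rOut := by norm_num

/-- the centres. -/
noncomputable def c5c (k : ℕ) : E 3 := !₂[Real.log 2 / 2, 2 + 4 * (k : ℝ), 0]

lemma c5_mem {k : ℕ} {x : E 3} (hx : dist x (c5c k) ≤ 1 / 4) : x ∈ Mset := by
  have h : ∀ i, |x i - c5c k i| ≤ 1 / 4 := by
    intro i
    have h1 : |x i - c5c k i| = ‖(x - c5c k) i‖ := by
      rw [Real.norm_eq_abs]; rfl
    rw [h1]
    rw [dist_eq_norm] at hx
    exact (PiLp.norm_apply_le _ i).trans hx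
  have h0 := abs_le.mp (h 0)
  have h1 := abs_le.mp (h 1)
  have h2 := abs_le.mp (h 2)
  have e0 : c5c k 0 = Real.log 2 / 2 := rfl
  have e1 : c5c k 1 = 2 + 4 * (k : ℝ) := rfl
  have e2 : c5c k 2 = 0 := rfl
  rw [e0] at h0
  rw [e1] at h1
  rw [e2] at h2
  have hl := Real.log_two_gt_d9
  have hk : (0 : ℝ) ≤ k := Nat.cast_nonneg k
  refine ⟨?_, ?_, ?_, ?_, ?_⟩
  · linarith [h0.1]
  · linarith [h0.2]
  · linarith [h1.1]
  · linarith [h2.1]
  · linarith [h2.2]

/-- the normalisation. -/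
noncomputable def c5I : ℝ := ∫ x, (c5bump x) ^ 2

lemma c5I_pos : 0 < c5I := by
  rw [c5I]
  apply Continuous.integral_pos_of_hasCompactSupport_nonneg_nonzero (x := (0 : E 3))
  · exact c5bump.continuous.pow 2
  · have : HasCompactSupport (fun x => c5bump x) := c5bump.hasCompactSupport
    refine this.comp_left (g := fun t : ℝ => t ^ 2) (by norm_num)
  · intro x; positivity
  · have : c5bump (0 : E 3) = 1 := c5bump.one_of_mem_closedBall (by simp [c5bump])
    rw [this]; norm_num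

noncomputable def c5g (x : E 3) : ℝ := (√c5I)⁻¹ * c5bump x

lemma c5g_sq : ∫ x, c5g x ^ 2 = 1 := by
  have h : ∀ x, c5g x ^ 2 = c5I⁻¹ * c5bump x ^ 2 := by
    intro x
    rw [c5g, mul_pow, inv_pow, Real.sq_sqrt c5I_pos.le]
  simp only [h]
  rw [integral_const_mul]
  exact inv_mul_cancel₀ c5I_pos.ne'

lemma c5g_contDiff : ContDiff ℝ ∞ c5g := contDiff_const.mul c5bump.contDiff

lemma c5g_zero {x : E 3} (hx : 1 / 4 ≤ ‖x‖) : c5g x = 0 := by
  rw [c5g, c5bump.zero_of_le_dist, mul_zero]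
  rw [dist_zero_right]; exact hx

lemma c5g_compact : HasCompactSupport c5g := by
  refine HasCompactSupport.intro (isCompact_closedBall (0 : E 3) (1 / 4)) fun x hx => ?_
  apply c5g_zero
  rw [Metric.mem_closedBall, dist_zero_right, not_le] at hx
  exact hx.le

noncomputable def c5F (k : ℕ) (x : E 3) : ℝ := c5g (x - c5c k)

lemma c5F_contDiff (k : ℕ) : ContDiff ℝ ∞ (c5F k) :=
  c5g_contDiff.comp (contDiff_id.sub contDiff_const)

lemma c5F_zero {k : ℕ} {x : E 3} (hx : 1 / 4 ≤ dist x (c5c k)) : c5F k x = 0 := by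
  apply c5g_zero
  rwa [← dist_eq_norm]

lemma c5F_zero' {k : ℕ} {x : E 3} (hx : x ∉ Mset) : c5F k x = 0 := by
  apply c5F_zero
  by_contra h
  exact hx (c5_mem (not_le.mp h).le)

noncomputable def c5u (k : ℕ) (p : Mset) : ℝ := c5F k p.1

lemma c5u_isTest (k : ℕ) : IsTest 3 (c5u k) := by
  refine ⟨(c5F_contDiff k).contMDiff.comp contMDiff_subtype_val, ?_⟩
  have hK : IsCompact ((Subtype.val : Mset → E 3) ⁻¹' (Metric.closedBall (c5c k) (1 / 4))) := by
    apply Topology.IsInducing.isCompact_preimage' Topology.IsInducing.subtypeVal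
      (isCompact_closedBall _ _)
    intro x hx
    exact ⟨⟨x, c5_mem hx⟩, rfl⟩
  refine HasCompactSupport.intro hK fun p hp => ?_
  apply c5F_zero
  rw [mem_preimage, Metric.mem_closedBall, not_le] at hp
  exact hp.le

noncomputable def c5D : ℝ := ∫ x, ‖fderiv ℝ c5g x‖ ^ 2

lemma c5F_fderiv (k : ℕ) (x : E 3) : fderiv ℝ (c5F k) x = fderiv ℝ c5g (x - c5c k) := by
  have : c5F k = fun x => c5g (x - c5c k) := rfl
  rw [this, fderiv_comp_sub]

lemma c5_integrable_fderiv (k : ℕ) : Integrable (fun x => 15 * ‖fderiv ℝ (c5F k) x‖ ^ 2) := by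
  apply Continuous.integrable_of_hasCompactSupport
  · have := (c5F_contDiff k).continuous_fderiv (by simp)
    fun_prop
  · have h1 : HasCompactSupport (c5F k) := by
      refine HasCompactSupport.intro (isCompact_closedBall (c5c k) (1 / 4)) fun x hx => ?_
      apply c5F_zero
      rw [Metric.mem_closedBall, not_le] at hx
      exact hx.le
    have h2 := h1.fderiv ℝ
    exact h2.comp_left (g := fun t : E 3 →L[ℝ] ℝ => 15 * ‖t‖ ^ 2) (by simp)

lemma c5_int_F (k : ℕ) : ∫ x, c5F k x ^ 2 = 1 := by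
  have : ∀ x, c5F k x ^ 2 = (fun y => c5g y ^ 2) (x - c5c k) := fun x => rfl
  simp only [this]
  rw [integral_sub_right_eq_self (fun y => c5g y ^ 2)]
  exact c5g_sq

lemma c5_int_D (k : ℕ) : ∫ x, 15 * ‖fderiv ℝ (c5F k) x‖ ^ 2 = 15 * c5D := by
  rw [integral_const_mul]
  congr 1
  simp only [c5F_fderiv]
  exact integral_sub_right_eq_self (fun y => ‖fderiv ℝ c5g y‖ ^ 2) (c5c k)

lemma c5_integrable_sq (k : ℕ) : Integrable (fun x => c5F k x ^ 2) := by
  apply Continuous.integrable_of_hasCompactSupport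
  · exact (c5F_contDiff k).continuous.pow 2
  · refine HasCompactSupport.intro (isCompact_closedBall (c5c k) (1 / 4)) fun x hx => ?_
    rw [Metric.mem_closedBall, not_le] at hx
    rw [c5F_zero hx.le]
    norm_num

lemma c5_grad (k : ℕ) (p : Mset) : gradInner 3 5 phi0 (c5u k) (c5u k) p * lamPhi p.1
    ≤ 15 * ‖fderiv ℝ (c5F k) p.1‖ ^ 2 := by
  have hx : p.1 ∈ Mset := p.2
  have hx' : p.1 ∈ (chartAt (E 3) p).target := by rw [target_Mset]; exact hx
  have h0 : (chartAt (E 3) p).symm p.1 = p := c1_symm p hx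
  have h1 := gradInner_chart isImm_phi0 hx' ((c5u_isTest k).mdifferentiableAt _)
    ((c5u_isTest k).mdifferentiableAt _)
  rw [h0] at h1
  have h2 : ∀ i, pd i (c5u k ∘ (chartAt (E 3) p).symm) p.1 = fderiv ℝ (c5F k) p.1 (bv i) := by
    intro i
    have h3 : (c5u k ∘ (chartAt (E 3) p).symm) =ᶠ[𝓝 p.1] c5F k := by
      filter_upwards [c1_isOpen.mem_nhds hx] with y hy
      rw [Function.comp_apply, c5u, c1_symm_coe p hy]
    rw [pd, h3.fderiv_eq]
  simp only [h2] at h1
  have hl := lamPhi_pos p.1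
  have hinv : (metricM 3 5 phi0 p p.1)⁻¹
      = Matrix.diagonal ![(lamPhi p.1)⁻¹, (lamPhi p.1)⁻¹, 1] := by
    rw [metricM_phi0' p hx]
    apply Matrix.inv_eq_right_inv
    rw [Matrix.diagonal_mul_diagonal]
    ext i j
    by_cases hij : i = j
    · subst hij
      rw [Matrix.diagonal_apply_eq, Matrix.one_apply_eq]
      fin_cases i <;> simp [hl.ne']
    · rw [Matrix.diagonal_apply_ne _ hij, Matrix.one_apply_ne hij]
  rw [h1, hinv]
  set L := fderiv ℝ (c5F k) p.1 with hL
  have hsum : ∑ i, ∑ j, (Matrix.diagonal ![(lamPhi p.1)⁻¹, (lamPhi p.1)⁻¹, 1] :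
      Matrix (Fin 3) (Fin 3) ℝ) i j * L (bv i) * L (bv j)
      = (lamPhi p.1)⁻¹ * L (bv 0) ^ 2 + (lamPhi p.1)⁻¹ * L (bv 1) ^ 2 + L (bv 2) ^ 2 := by
    simp [Fin.sum_univ_succ, Matrix.diagonal]
    ring
  rw [hsum]
  have hb : ∀ i, L (bv i) ^ 2 ≤ ‖L‖ ^ 2 := by
    intro i
    have h4 := L.le_opNorm (bv i)
    have h5 : ‖(bv i : E 3)‖ = 1 := by simp
    rw [h5, mul_one] at h4
    rw [← sq_abs]
    exact pow_le_pow_left₀ (abs_nonneg _) h4 2
  have h6 := hb 0
  have h7 := hb 1
  have h8 := hb 2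
  have h9 := lamPhi_le hx
  have h10 : ((lamPhi p.1)⁻¹ * L (bv 0) ^ 2 + (lamPhi p.1)⁻¹ * L (bv 1) ^ 2 + L (bv 2) ^ 2)
      * lamPhi p.1 = L (bv 0) ^ 2 + L (bv 1) ^ 2 + lamPhi p.1 * L (bv 2) ^ 2 := by
    field_simp
  rw [h10]
  nlinarith [sq_nonneg (L (bv 2)), sq_nonneg (‖L‖)]

/-- C5 (uses C1, A2) -/
theorem not_discrete_phi0 {μ : Measure Mset} (hμ : IsRiemVolume 3 5 phi0 μ) :
    ¬ HasDiscreteSpectrum 3 5 phi0 μ := by
  have hmeas : MeasurableSet (Mset : Set (E 3)) := c1_isOpen.measurableSet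
  have hD0 : 0 ≤ c5D := integral_nonneg fun x => by positivity
  have hres : ∀ k, ∫ x in (Mset : Set (E 3)), c5F k x ^ 2 = 1 := by
    intro k
    rw [setIntegral_eq_integral_of_forall_compl_eq_zero, c5_int_F]
    intro x hx
    rw [c5F_zero' hx]
    norm_num
  have hsq : ∀ k, ∫ p, c5u k p ^ 2 ∂μ = ∫ x in (Mset : Set (E 3)), c5F k x ^ 2 * lamPhi x :=
    fun k => integral_phi0 hμ (fun p => c5u k p ^ 2) (fun x => c5F k x ^ 2) (fun p => rfl)
  have hint : ∀ k, IntegrableOn (fun x => c5F k x ^ 2 * lamPhi x) (Mset : Set (E 3)) := by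
    intro k
    apply Integrable.integrableOn
    apply Continuous.integrable_of_hasCompactSupport
    · exact ((c5F_contDiff k).continuous.pow 2).mul continuous_lamPhi
    · refine HasCompactSupport.intro (isCompact_closedBall (c5c k) (1 / 4)) fun x hx => ?_
      rw [Metric.mem_closedBall, not_le] at hx
      rw [c5F_zero hx.le]
      norm_num
  refine not_discrete_of_sequence isImm_phi0 hμ (u := c5u) c5u_isTest (C := 5 + 15 * c5D)
    ?_ ?_ ?_ ?_
  · -- energies
    intro k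
    classical
    set G : E 3 → ℝ := fun x => if h : x ∈ Mset then
      gradInner 3 5 phi0 (c5u k) (c5u k) ⟨x, h⟩ else 0 with hG
    have hGp : ∀ p : Mset, G p.1 = gradInner 3 5 phi0 (c5u k) (c5u k) p := fun p => by
      rw [hG]
      simp only
      rw [dif_pos p.2]
    have h1 : dirichlet 3 5 phi0 μ (c5u k) (c5u k)
        = ∫ x in (Mset : Set (E 3)), G x * lamPhi x := by
      rw [dirichlet]
      exact integral_phi0 hμ _ _ (fun p => (hGp p).symm)
    rw [h1]
    have h2 : ∫ x in (Mset : Set (E 3)), G x * lamPhi x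
        ≤ ∫ x in (Mset : Set (E 3)), 15 * ‖fderiv ℝ (c5F k) x‖ ^ 2 := by
      apply integral_mono_of_nonneg
      · refine (ae_restrict_iff' hmeas).mpr (ae_of_all _ fun x hx => ?_)
        show 0 ≤ G x * lamPhi x
        have := hGp ⟨x, hx⟩
        simp only at this
        rw [this]
        exact mul_nonneg (gradInner_self_nonneg isImm_phi0 _ _) (lamPhi_pos x).le
      · exact (c5_integrable_fderiv k).integrableOn
      · refine (ae_restrict_iff' hmeas).mpr (ae_of_all _ fun x hx => ?_)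
        show G x * lamPhi x ≤ _
        have := hGp ⟨x, hx⟩
        simp only at this
        rw [this]
        exact c5_grad k ⟨x, hx⟩
    have h3 : ∫ x in (Mset : Set (E 3)), 15 * ‖fderiv ℝ (c5F k) x‖ ^ 2
        ≤ ∫ x, 15 * ‖fderiv ℝ (c5F k) x‖ ^ 2 :=
      setIntegral_le_integral (c5_integrable_fderiv k) (ae_of_all _ fun x => by positivity)
    rw [c5_int_D] at h3
    linarith
  · intro k
    rw [hsq, ← hres k]
    apply setIntegral_mono_on (c5_integrable_sq k).integrableOn (hint k) hmeas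
    intro x hx
    have := one_le_lamPhi hx
    nlinarith [sq_nonneg (c5F k x)]
  · intro k
    rw [hsq]
    have h4 : ∫ x in (Mset : Set (E 3)), c5F k x ^ 2 * lamPhi x
        ≤ ∫ x in (Mset : Set (E 3)), 5 * c5F k x ^ 2 := by
      apply setIntegral_mono_on (hint k) ((c5_integrable_sq k).const_mul 5).integrableOn hmeas
      intro x hx
      have := lamPhi_le hx
      nlinarith [sq_nonneg (c5F k x)]
    rw [integral_const_mul, hres k] at h4
    linarith
  · intro k l hkl
    have h5 : ∀ p : Mset, c5u k p * c5u l p = 0 := by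
      intro p
      by_contra h
      have h6 : dist p.1 (c5c k) < 1 / 4 := by
        by_contra h7
        exact h (by rw [c5u, c5F_zero (not_lt.mp h7), zero_mul])
      have h7 : dist p.1 (c5c l) < 1 / 4 := by
        by_contra h7
        exact h (by rw [mul_comm, c5u, c5F_zero (not_lt.mp h7), zero_mul])
      have h8 : dist (c5c k) (c5c l) < 1 / 2 := by
        have := dist_triangle_left (c5c k) (c5c l) p.1
        linarith
      have h9 : |(c5c k) 1 - (c5c l) 1| ≤ dist (c5c k) (c5c l) := by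
        rw [dist_eq_norm, ← Real.norm_eq_abs]
        exact PiLp.norm_apply_le (c5c k - c5c l) 1
      have e1 : (c5c k) 1 - (c5c l) 1 = 4 * ((k : ℝ) - l) := by
        show (2 + 4 * (k : ℝ)) - (2 + 4 * (l : ℝ)) = _
        ring
      rw [e1, abs_mul] at h9
      have h10 : (1 : ℝ) ≤ |(k : ℝ) - l| := by
        have h11 : (1 : ℤ) ≤ |(k : ℤ) - l| := Int.one_le_abs (by omega)
        exact_mod_cast h11
      have h12 : |(4 : ℝ)| = 4 := by norm_num
      rw [h12] at h9
      linarith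
    simp only [h5]
    exact integral_zero _ _

end Pool.Agent.helper43.MS
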