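import Pool.Agent.helper43.MS.Defs

set_option linter.all false

/-! module G1 of MP_899162_gt: finite covers of compact null sets with small potentials. -/

open MeasureTheory Set Filter Topology
open scoped ENNReal

namespace Pool.Agent.helper43.MS

section G1aux

variable {X : Type*} [MetricSpace X] [MeasurableSpace X] [BorelSpace X]

lemma g1_pow_add_le {a b : ℝ} (ha : 0 ≤ a) (hb : 0 ≤ b) (m : ℕ) :
    (a + b) ^ m ≤ 2 ^ m * (a ^ m + b ^ m) := by
  have h1 : a + b ≤ 2 * max a b := by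
    linarith [le_max_left a b, le_max_right a b]
  calc (a + b) ^ m ≤ (2 * max a b) ^ m := by gcongr
    _ = 2 ^ m * (max a b) ^ m := mul_pow _ _ _
    _ ≤ 2 ^ m * (a ^ m + b ^ m) := by
        gcongr
        rcases max_choice a b with h | h <;> rw [h]
        · linarith [pow_nonneg hb m]
        · linarith [pow_nonneg ha m]

/-- a first finite cover by small balls with small sum. -/
lemma g1_first_cover {K : Set X} (hK : IsCompact K) [Inhabited X] {m : ℕ} (hm : 1 ≤ m)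
    (h0 : μH[(m : ℝ)] K = 0) {δ ε : ℝ} (hδ : 0 < δ) (hε : 0 < ε) :
    ∃ T : Finset (X × ℝ), (∀ p ∈ T, 0 < p.2 ∧ p.2 ≤ δ) ∧ (K ⊆ ⋃ p ∈ T, Metric.ball p.1 p.2) ∧
      ∑ p ∈ T, p.2 ^ m ≤ ε := by
  classical
  set ε₁ : ℝ := ε / 2 ^ m / 2 with hε₁
  have hε₁0 : 0 < ε₁ := by positivity
  rw [Measure.hausdorffMeasure_apply] at h0
  have h1 : (⨅ (t : ℕ → Set X) (_ : K ⊆ ⋃ n, t n) (_ : ∀ n, Metric.ediam (t n) ≤ ENNReal.ofReal (δ / 2)),
      ∑' n, ⨆ _ : (t n).Nonempty, Metric.ediam (t n) ^ (m : ℝ)) < ENNReal.ofReal ε₁ := by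
    have h2 : (0 : ℝ≥0∞) < ENNReal.ofReal (δ / 2) := by
      rw [ENNReal.ofReal_pos]; positivity
    have h3 := (iSup_eq_bot.mp (show _ = (⊥ : ℝ≥0∞) from h0)) (ENNReal.ofReal (δ / 2))
    have h4 := (iSup_eq_bot.mp h3) h2
    rw [h4]
    rw [bot_eq_zero, ENNReal.ofReal_pos]
    exact hε₁0
  simp only [iInf_lt_iff] at h1
  obtain ⟨t, htK, htd, hts⟩ := h1
  set d : ℕ → ℝ := fun n => (Metric.ediam (t n)).toReal with hd
  have hdne : ∀ n, Metric.ediam (t n) ≠ ∞ := fun n => ((htd n).trans_lt ENNReal.ofReal_lt_top).ne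
  have hd0 : ∀ n, 0 ≤ d n := fun n => ENNReal.toReal_nonneg
  have hdδ : ∀ n, d n ≤ δ / 2 := fun n => ENNReal.toReal_le_of_le_ofReal (by positivity) (htd n)
  have hsum : ∀ s : Finset ℕ, ∑ n ∈ s, d n ^ m ≤ ε₁ := by
    intro s
    have h5 : ∑ n ∈ s, (ENNReal.ofReal (d n ^ m)) ≤ ENNReal.ofReal ε₁ := by
      refine le_trans ?_ hts.le
      refine le_trans ?_ (ENNReal.sum_le_tsum s)
      refine Finset.sum_le_sum fun n _ => ?_
      rcases (t n).eq_empty_or_nonempty with h6 | h6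
      · have h7 : d n = 0 := by rw [hd]; simp [h6]
        rw [h7, zero_pow (by omega)]
        simp
      · rw [ciSup_pos h6, ENNReal.rpow_natCast, ENNReal.ofReal_pow (hd0 n), hd,
          ENNReal.ofReal_toReal (hdne n)]
    rw [← ENNReal.ofReal_sum_of_nonneg (fun n _ => pow_nonneg (hd0 n) m)] at h5
    exact (ENNReal.ofReal_le_ofReal_iff hε₁0.le).mp h5
  set c : ℝ := min 1 (ε₁ / 2) with hc
  have hc0 : 0 < c := lt_min one_pos (by positivity)
  set e : ℕ → ℝ := fun n => min (δ / 2) (c * (1 / 2) ^ n) with he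
  have he0 : ∀ n, 0 < e n := fun n => lt_min (by positivity) (by positivity)
  have he1 : ∀ n, e n ≤ c * (1 / 2) ^ n := fun n => min_le_right _ _
  have he2 : ∀ n, e n ≤ 1 := fun n => (he1 n).trans (by
    calc c * (1 / 2) ^ n ≤ 1 * 1 := by
          apply mul_le_mul (min_le_left _ _) (pow_le_one₀ (by norm_num) (by norm_num))
            (by positivity) zero_le_one
      _ = 1 := one_mul 1)
  have hesum : ∀ s : Finset ℕ, ∑ n ∈ s, e n ^ m ≤ ε₁ := by
    intro s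
    have h7 : ∑ n ∈ s, e n ^ m ≤ ∑ n ∈ s, c * (1 / 2) ^ n := by
      refine Finset.sum_le_sum fun n _ => ?_
      refine le_trans ?_ (he1 n)
      calc e n ^ m ≤ e n ^ 1 := pow_le_pow_of_le_one (he0 n).le (he2 n) hm
        _ = e n := pow_one _
    refine h7.trans ?_
    rw [← Finset.mul_sum]
    have h8 : ∑ n ∈ s, (1 / 2 : ℝ) ^ n ≤ 2 := by
      have := (summable_geometric_two).sum_le_tsum s (fun n _ => by positivity)
      rwa [tsum_geometric_two] at this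
    calc c * ∑ n ∈ s, (1 / 2 : ℝ) ^ n ≤ (ε₁ / 2) * 2 := by
          apply mul_le_mul (min_le_right _ _) h8 (Finset.sum_nonneg fun n _ => by positivity)
            (by positivity)
      _ = ε₁ := by ring
  have hz : ∀ n, ∃ z : X, t n ⊆ Metric.ball z (d n + e n) := by
    intro n
    rcases (t n).eq_empty_or_nonempty with h6 | ⟨z, hz⟩
    · exact ⟨default, by rw [h6]; exact empty_subset _⟩
    · refine ⟨z, fun x hx => ?_⟩
      rw [Metric.mem_ball]
      have h9 := Metric.edist_le_ediam_of_mem hx hz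
      have h10 : dist x z ≤ d n := by
        rw [dist_edist]
        exact ENNReal.toReal_mono (hdne n) h9
      linarith [he0 n]
  choose z hz using hz
  obtain ⟨s, hs⟩ := hK.elim_finite_subcover (fun n => Metric.ball (z n) (d n + e n))
    (fun n => Metric.isOpen_ball) (htK.trans (iUnion_mono hz))
  refine ⟨s.image (fun n => (z n, d n + e n)), ?_, ?_, ?_⟩
  · intro p hp
    obtain ⟨n, hn, rfl⟩ := Finset.mem_image.mp hp
    refine ⟨add_pos_of_nonneg_of_pos (hd0 n) (he0 n), ?_⟩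
    have := min_le_left (δ / 2) (c * (1 / 2) ^ n)
    show d n + e n ≤ δ
    linarith [hdδ n]
  · intro x hx
    obtain ⟨n, hn, hxn⟩ := mem_iUnion₂.mp (hs hx)
    exact mem_iUnion₂.mpr ⟨(z n, d n + e n), Finset.mem_image_of_mem _ hn, hxn⟩
  · refine (Finset.sum_image_le_of_nonneg ?_).trans ?_
    · intro p hp
      obtain ⟨n, hn, rfl⟩ := Finset.mem_image.mp hp
      show 0 ≤ (d n + e n) ^ m
      have := hd0 n
      have := he0 n
      positivity
    · calc ∑ n ∈ s, (d n + e n) ^ m ≤ ∑ n ∈ s, 2 ^ m * (d n ^ m + e n ^ m) :=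
            Finset.sum_le_sum fun n _ => g1_pow_add_le (hd0 n) (he0 n).le m
        _ = 2 ^ m * (∑ n ∈ s, d n ^ m + ∑ n ∈ s, e n ^ m) := by
            rw [← Finset.mul_sum, Finset.sum_add_distrib]
        _ ≤ 2 ^ m * (ε₁ + ε₁) := by
            gcongr
            · exact hsum s
            · exact hesum s
        _ = ε := by rw [hε₁]; field_simp; ring

/-- dyadic summation. -/
lemma g1_dyadic {ι : Type*} [DecidableEq ι] (T : Finset ι) (w ρ : ι → ℝ) (m : ℕ) (hm : 1 ≤ m)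
    (hw : ∀ i ∈ T, 0 ≤ w i) {a b C : ℝ} (ha : 0 < a) (hC : 0 ≤ C) (hρ : ∀ i ∈ T, a ≤ ρ i)
    (hW : ∀ t, 0 < t → t ≤ b → ∑ i ∈ T with ρ i ≤ t, w i ≤ C * t ^ m) (N : ℕ) :
    ∀ t, 0 < t → t ≤ b → t < 2 ^ N * a → ∑ i ∈ T with ρ i ≤ t, w i / ρ i ^ (m - 1)
      ≤ C * 2 ^ m * t := by
  induction N with
  | zero =>
    intro t ht _ hta
    rw [pow_zero, one_mul] at hta
    rw [Finset.filter_false_of_mem]
    · rw [Finset.sum_empty]; positivity
    · intro i hi h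
      linarith [hρ i hi]
  | succ N ih =>
    intro t ht htb hta
    have h1 := ih (t / 2) (by positivity) (by linarith) (by rw [pow_succ] at hta; linarith)
    have h2 : ∑ i ∈ T with ρ i ≤ t, w i / ρ i ^ (m - 1)
        = ∑ i ∈ T with ρ i ≤ t / 2, w i / ρ i ^ (m - 1)
          + ∑ i ∈ T with (ρ i ≤ t ∧ ¬ ρ i ≤ t / 2), w i / ρ i ^ (m - 1) := by
      rw [← Finset.sum_filter_add_sum_filter_not (T.filter (fun i => ρ i ≤ t))
        (fun i => ρ i ≤ t / 2)]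
      congr 1
      · apply Finset.sum_congr _ (fun _ _ => rfl)
        rw [Finset.filter_filter]
        apply Finset.filter_congr
        intro i _
        constructor
        · exact fun h => h.2
        · exact fun h => ⟨by linarith, h⟩
      · apply Finset.sum_congr _ (fun _ _ => rfl)
        rw [Finset.filter_filter]
    have h3 : ∑ i ∈ T with (ρ i ≤ t ∧ ¬ ρ i ≤ t / 2), w i / ρ i ^ (m - 1)
        ≤ ∑ i ∈ T with ρ i ≤ t, w i / (t / 2) ^ (m - 1) := by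
      calc ∑ i ∈ T with (ρ i ≤ t ∧ ¬ ρ i ≤ t / 2), w i / ρ i ^ (m - 1)
          ≤ ∑ i ∈ T with (ρ i ≤ t ∧ ¬ ρ i ≤ t / 2), w i / (t / 2) ^ (m - 1) := by
            refine Finset.sum_le_sum fun i hi => ?_
            obtain ⟨hiT, h4, h5⟩ := Finset.mem_filter.mp hi
            push Not at h5
            have := hw i hiT
            gcongr
        _ ≤ _ := by
            apply Finset.sum_le_sum_of_subset_of_nonneg
            · intro i hi
              obtain ⟨hiT, h4, h5⟩ := Finset.mem_filter.mp hi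
              exact Finset.mem_filter.mpr ⟨hiT, h4⟩
            · intro i hi _
              have := hw i (Finset.mem_filter.mp hi).1
              positivity
    have h4 : ∑ i ∈ T with ρ i ≤ t, w i / (t / 2) ^ (m - 1) ≤ C * 2 ^ (m - 1) * t := by
      rw [← Finset.sum_div, div_le_iff₀ (by positivity)]
      refine (hW t ht htb).trans (le_of_eq ?_)
      obtain ⟨k, rfl⟩ : ∃ k, m = k + 1 := ⟨m - 1, by omega⟩
      simp only [Nat.add_sub_cancel]
      rw [div_pow, pow_succ]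
      field_simp
    have h5 : C * 2 ^ m * (t / 2) = C * 2 ^ (m - 1) * t := by
      obtain ⟨k, rfl⟩ : ∃ k, m = k + 1 := ⟨m - 1, by omega⟩
      simp only [Nat.add_sub_cancel]
      rw [pow_succ]; ring
    have h6 : C * 2 ^ m * t = C * 2 ^ (m - 1) * t + C * 2 ^ (m - 1) * t := by
      obtain ⟨k, rfl⟩ : ∃ k, m = k + 1 := ⟨m - 1, by omega⟩
      simp only [Nat.add_sub_cancel]
      rw [pow_succ]; ring
    rw [h2, h6]
    have := h3.trans h4
    linarith

/-- almost minimal covers. -/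
lemma g1_good_cover {K : Set X} (hK : IsCompact K) [Inhabited X] {m : ℕ} (hm : 1 ≤ m)
    (h0 : μH[(m : ℝ)] K = 0) {δ ε : ℝ} (hδ : 0 < δ) (hε : 0 < ε) :
    ∃ (T : Finset (X × ℝ)) (a : ℝ), 0 < a ∧ (∀ p ∈ T, a ≤ p.2 ∧ p.2 ≤ δ) ∧
      (K ⊆ ⋃ p ∈ T, Metric.ball p.1 p.2) ∧
      ∑ p ∈ T, p.2 ^ m ≤ ε ∧
      ∀ (y : X) (t : ℝ), 0 < t → 2 * t ≤ δ → (open Classical in
        ∑ p ∈ T with (p.2 ≤ t ∧ dist y p.1 ≤ t), p.2 ^ m ≤ 2 * (2 * t) ^ m) := by
  classical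
  obtain ⟨T₀, hT₀, hT₀K, hT₀s⟩ := g1_first_cover hK hm h0 hδ (half_pos hε)
  obtain ⟨a, ha0, haT, haε⟩ : ∃ a : ℝ, 0 < a ∧ (∀ p ∈ T₀, a ≤ p.2) ∧ a ^ m ≤ ε / 2 := by
    have h1 : ∀ᶠ a : ℝ in 𝓝[>] 0, 0 < a := self_mem_nhdsWithin
    have h2 : ∀ᶠ a : ℝ in 𝓝[>] 0, ∀ p ∈ T₀, a ≤ p.2 := by
      rw [Filter.eventually_all_finset]
      intro p hp
      exact mem_nhdsWithin_of_mem_nhds (Iic_mem_nhds (hT₀ p hp).1)
    have h3 : ∀ᶠ a : ℝ in 𝓝[>] 0, a ^ m ≤ ε / 2 := by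
      apply mem_nhdsWithin_of_mem_nhds
      have h4 : ContinuousAt (fun a : ℝ => a ^ m) 0 := by fun_prop
      have h5 : (fun a : ℝ => a ^ m) 0 < ε / 2 := by
        simp only
        rw [zero_pow (by omega)]
        positivity
      exact h4.preimage_mem_nhds (Iic_mem_nhds h5)
    obtain ⟨a, h4, h5, h6⟩ := (h1.and (h2.and h3)).exists
    exact ⟨a, h4, h5, h6⟩
  set Adm : Finset (X × ℝ) → Prop := fun T => (∀ p ∈ T, a ≤ p.2 ∧ p.2 ≤ δ) ∧
    K ⊆ ⋃ p ∈ T, Metric.ball p.1 p.2 with hAdm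
  set A : Set ℝ := {c | ∃ T, Adm T ∧ ∑ p ∈ T, p.2 ^ m = c} with hA
  have hAdm₀ : Adm T₀ := ⟨fun p hp => ⟨haT p hp, (hT₀ p hp).2⟩, hT₀K⟩
  have hbdd : BddBelow A := by
    refine ⟨0, ?_⟩
    rintro c ⟨T, hT, rfl⟩
    exact Finset.sum_nonneg fun p hp => pow_nonneg (ha0.le.trans (hT.1 p hp).1) m
  have hne : A.Nonempty := ⟨_, T₀, hAdm₀, rfl⟩
  have hS : ∀ T, Adm T → sInf A ≤ ∑ p ∈ T, p.2 ^ m := fun T hT => csInf_le hbdd ⟨T, hT, rfl⟩
  have ham : 0 < a ^ m := pow_pos ha0 m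
  obtain ⟨c, ⟨T, hT, rfl⟩, hc⟩ := exists_lt_of_csInf_lt hne (lt_add_of_pos_right (sInf A) ham)
  refine ⟨T, a, ha0, hT.1, hT.2, ?_, ?_⟩
  · have := hS T₀ hAdm₀
    linarith
  · intro y t ht0 ht
    set F := T.filter (fun p => p.2 ≤ t ∧ dist y p.1 ≤ t) with hF
    rcases F.eq_empty_or_nonempty with hFe | ⟨p₀, hp₀⟩
    · rw [hFe, Finset.sum_empty]; positivity
    have hat : a ≤ 2 * t := by
      obtain ⟨h1, h2, h3⟩ := Finset.mem_filter.mp hp₀
      linarith [(hT.1 p₀ h1).1]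
    set G := T.filter (fun p => ¬ (p.2 ≤ t ∧ dist y p.1 ≤ t)) with hG
    have hT' : Adm (insert (y, 2 * t) G) := by
      refine ⟨?_, ?_⟩
      · intro p hp
        rcases Finset.mem_insert.mp hp with rfl | hp
        · exact ⟨hat, ht⟩
        · exact hT.1 p (Finset.mem_filter.mp hp).1
      · intro x hx
        obtain ⟨p, hp, hxp⟩ := mem_iUnion₂.mp (hT.2 hx)
        by_cases h : p.2 ≤ t ∧ dist y p.1 ≤ t
        · refine mem_iUnion₂.mpr ⟨(y, 2 * t), Finset.mem_insert_self _ _, ?_⟩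
          rw [Metric.mem_ball] at hxp ⊢
          show dist x y < 2 * t
          have h2 := dist_triangle x p.1 y
          rw [dist_comm p.1 y] at h2
          linarith [h.1, h.2]
        · exact mem_iUnion₂.mpr ⟨p, Finset.mem_insert_of_mem (Finset.mem_filter.mpr ⟨hp, h⟩), hxp⟩
    have h1 := hS _ hT'
    have h2 : ∑ p ∈ insert (y, 2 * t) G, p.2 ^ m ≤ (2 * t) ^ m + ∑ p ∈ G, p.2 ^ m := by
      by_cases h : (y, 2 * t) ∈ G
      · rw [Finset.insert_eq_of_mem h]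
        have : 0 < (2 * t) ^ m := by positivity
        linarith
      · rw [Finset.sum_insert h]
    have h3 : ∑ p ∈ T, p.2 ^ m = ∑ p ∈ F, p.2 ^ m + ∑ p ∈ G, p.2 ^ m :=
      (Finset.sum_filter_add_sum_filter_not T _ _).symm
    have h4 : a ^ m ≤ (2 * t) ^ m := by gcongr
    have h5 : ∑ p ∈ F, p.2 ^ m ≤ 2 * (2 * t) ^ m := by linarith
    exact h5

end G1aux

/-- G1: finite covers of a compact `H^m`-null set with small potentials. -/
theorem exists_cover_potential {n : ℕ} (m : ℕ) (hm : 3 ≤ m) {K : Set (E n)} (hK : IsCompact K)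
    (h0 : μH[(m : ℝ)] K = 0) {ε : ℝ} (hε : 0 < ε) :
    ∃ (k : ℕ) (z : Fin k → E n) (r : Fin k → ℝ), (∀ i, 0 < r i ∧ r i ≤ ε) ∧
      (∀ i, ∃ y ∈ K, dist y (z i) ≤ ε) ∧ (K ⊆ ⋃ i, Metric.ball (z i) (r i)) ∧
      (∀ y : E n, ∑ i, (r i) ^ m / (√((r i) ^ 2 + ‖y - z i‖ ^ 2)) ^ (m - 1) ≤ ε) := by
  classical
  -- scales
  set t₀ : ℝ := ε / 2 ^ (2 * m + 3) with ht₀
  have ht₀0 : 0 < t₀ := by positivity
  have h2t : 2 * t₀ ≤ ε := by
    rw [ht₀]
    have h1 : (2 : ℝ) ^ (2 * m + 3) = 2 * 2 ^ (2 * m + 2) := by rw [pow_succ]; ring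
    rw [h1]
    have h2 : (1 : ℝ) ≤ 2 ^ (2 * m + 2) := one_le_pow₀ (by norm_num)
    calc 2 * (ε / (2 * 2 ^ (2 * m + 2))) = ε / 2 ^ (2 * m + 2) := by field_simp
      _ ≤ ε / 1 := by gcongr
      _ = ε := div_one _
  obtain ⟨T, a, ha0, hT, hTK, hTs, hTm⟩ := g1_good_cover hK (by omega : 1 ≤ m) h0
    (show 0 < 2 * t₀ by positivity) (show 0 < ε / 2 * t₀ ^ (m - 1) by positivity)
  -- the potential of T
  have key : ∀ y : E n, ∑ p ∈ T, p.2 ^ m / (√(p.2 ^ 2 + ‖y - p.1‖ ^ 2)) ^ (m - 1) ≤ ε := by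
    intro y
    set ρ : E n × ℝ → ℝ := fun p => √(p.2 ^ 2 + ‖y - p.1‖ ^ 2) with hρ
    have hρ1 : ∀ p ∈ T, p.2 ≤ ρ p := by
      intro p hp
      have h0 : 0 ≤ p.2 := ha0.le.trans (hT p hp).1
      calc p.2 = √(p.2 ^ 2) := (Real.sqrt_sq h0).symm
        _ ≤ ρ p := Real.sqrt_le_sqrt (by nlinarith [sq_nonneg ‖y - p.1‖])
    have hρ2 : ∀ p ∈ T, dist y p.1 ≤ ρ p := by
      intro p hp
      rw [dist_eq_norm]
      calc ‖y - p.1‖ = √(‖y - p.1‖ ^ 2) := (Real.sqrt_sq (norm_nonneg _)).symm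
        _ ≤ ρ p := Real.sqrt_le_sqrt (by nlinarith [sq_nonneg p.2])
    have hw : ∀ p ∈ T, 0 ≤ p.2 ^ m := fun p hp => pow_nonneg (ha0.le.trans (hT p hp).1) m
    have hW : ∀ t, 0 < t → t ≤ t₀ → ∑ p ∈ T with ρ p ≤ t, p.2 ^ m ≤ (2 * 2 ^ m) * t ^ m := by
      intro t ht htt
      refine le_trans ?_ ((hTm y t ht (by linarith)).trans (le_of_eq (by rw [mul_pow]; ring)))
      apply Finset.sum_le_sum_of_subset_of_nonneg
      · intro p hp
        obtain ⟨h1, h2⟩ := Finset.mem_filter.mp hp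
        exact Finset.mem_filter.mpr ⟨h1, (hρ1 p h1).trans h2, (hρ2 p h1).trans h2⟩
      · intro p hp _
        exact hw p (Finset.mem_filter.mp hp).1
    obtain ⟨N, hN⟩ := pow_unbounded_of_one_lt (t₀ / a) (one_lt_two)
    have h1 := g1_dyadic T (fun p => p.2 ^ m) ρ m (by omega) hw ha0
      (show 0 ≤ (2 * 2 ^ m : ℝ) by positivity) (fun p hp => (hT p hp).1.trans (hρ1 p hp)) hW N
      t₀ ht₀0 le_rfl ((div_lt_iff₀ ha0).mp hN)
    have h2 : ∑ p ∈ T with ¬ ρ p ≤ t₀, p.2 ^ m / ρ p ^ (m - 1) ≤ ε / 2 := by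
      calc ∑ p ∈ T with ¬ ρ p ≤ t₀, p.2 ^ m / ρ p ^ (m - 1)
          ≤ ∑ p ∈ T with ¬ ρ p ≤ t₀, p.2 ^ m / t₀ ^ (m - 1) := by
            refine Finset.sum_le_sum fun p hp => ?_
            obtain ⟨h3, h4⟩ := Finset.mem_filter.mp hp
            push Not at h4
            have := hw p h3
            gcongr
        _ ≤ ∑ p ∈ T, p.2 ^ m / t₀ ^ (m - 1) := by
            apply Finset.sum_le_sum_of_subset_of_nonneg (Finset.filter_subset _ _)
            intro p hp _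
            have := hw p hp
            positivity
        _ ≤ ε / 2 := by
            rw [← Finset.sum_div, div_le_iff₀ (by positivity)]
            exact hTs
    have h3 : (2 * 2 ^ m : ℝ) * 2 ^ m * t₀ ≤ ε / 2 := by
      rw [ht₀]
      have h4 : (2 : ℝ) ^ (2 * m + 3) = 8 * (2 ^ m * 2 ^ m) := by
        rw [pow_add, two_mul, pow_add]; ring
      rw [h4]
      have h5 : (2 * 2 ^ m : ℝ) * 2 ^ m * (ε / (8 * (2 ^ m * 2 ^ m))) = ε / 4 := by
        field_simp; ring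
      rw [h5]; linarith
    rw [← Finset.sum_filter_add_sum_filter_not T (fun p => ρ p ≤ t₀)]
    linarith
  -- keep only the balls that meet K
  set T' := T.filter (fun p => (Metric.ball p.1 p.2 ∩ K).Nonempty) with hT'
  refine ⟨T'.card, fun i => (T'.equivFin.symm i).1.1, fun i => (T'.equivFin.symm i).1.2,
    ?_, ?_, ?_, ?_⟩
  · intro i
    have h1 := (Finset.mem_filter.mp (T'.equivFin.symm i).2).1
    have h2 := hT _ h1
    exact ⟨ha0.trans_le h2.1, h2.2.trans h2t⟩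
  · intro i
    obtain ⟨h1, y, hy1, hy2⟩ := Finset.mem_filter.mp (T'.equivFin.symm i).2
    refine ⟨y, hy2, (Metric.mem_ball.mp hy1).le.trans ?_⟩
    exact (hT _ h1).2.trans h2t
  · intro x hx
    obtain ⟨p, hp, hxp⟩ := mem_iUnion₂.mp (hTK hx)
    have hp' : p ∈ T' := Finset.mem_filter.mpr ⟨hp, x, hxp, hx⟩
    refine mem_iUnion.mpr ⟨T'.equivFin ⟨p, hp'⟩, ?_⟩
    simpa using hxp
  · intro y
    have h1 : ∑ i, (T'.equivFin.symm i).1.2 ^ m /
        (√((T'.equivFin.symm i).1.2 ^ 2 + ‖y - (T'.equivFin.symm i).1.1‖ ^ 2)) ^ (m - 1)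
        = ∑ p ∈ T', p.2 ^ m / (√(p.2 ^ 2 + ‖y - p.1‖ ^ 2)) ^ (m - 1) := by
      rw [Equiv.sum_comp T'.equivFin.symm
        (fun q : T' => q.1.2 ^ m / (√(q.1.2 ^ 2 + ‖y - q.1.1‖ ^ 2)) ^ (m - 1))]
      exact Finset.sum_coe_sort T' (fun p => p.2 ^ m / (√(p.2 ^ 2 + ‖y - p.1‖ ^ 2)) ^ (m - 1))
    rw [h1]
    refine le_trans ?_ (key y)
    apply Finset.sum_le_sum_of_subset_of_nonneg (Finset.filter_subset _ _)
    intro p hp _
    have : 0 ≤ p.2 := ha0.le.trans (hT p hp).1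
    positivity

end Pool.Agent.helper43.MS
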