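import Pool.Agent.helper91.MS.M0
import Pool.Agent.helper30.MS.V

set_option linter.all false

/-! module C1 of MP_899162_gt: the example. -/

open Bundle Manifold MeasureTheory Set Filter Topology
open scoped ContDiff ENNReal

namespace Pool.Agent.helper43.MS

lemma c1_chart_coe (p : Mset) (y : Mset) : chartAt (E 3) p y = (y : E 3) := rfl

theorem target_Mset (p : Mset) : (chartAt (E 3) p).target = (Mset : Set (E 3)) := by
  have h : chartAt (E 3) p = (chartAt (E 3) p.1).subtypeRestr ⟨p⟩ := rfl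
  rw [h, OpenPartialHomeomorph.subtypeRestr_def]
  ext x
  simp [mfld_simps]

lemma source_Mset (p : Mset) : (chartAt (E 3) p).source = univ := by
  have h : chartAt (E 3) p = (chartAt (E 3) p.1).subtypeRestr ⟨p⟩ := rfl
  rw [h, OpenPartialHomeomorph.subtypeRestr_source]
  simp [mfld_simps]

lemma c1_symm_coe (p : Mset) {x : E 3} (hx : x ∈ Mset) :
    (((chartAt (E 3) p).symm x : Mset) : E 3) = x := by
  rw [← c1_chart_coe p, (chartAt (E 3) p).right_inv]
  rw [target_Mset]
  exact hx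

lemma c1_symm (p : Mset) {x : E 3} (hx : x ∈ Mset) :
    (chartAt (E 3) p).symm x = ⟨x, hx⟩ := Subtype.ext (c1_symm_coe p hx)

lemma c1_isOpen : IsOpen (Mset : Set (E 3)) := Mset.isOpen

lemma contDiff_Phi : ContDiff ℝ ∞ Phi := by
  rw [contDiff_euclidean]
  intro i
  have h0 : ContDiff ℝ ∞ (fun x : E 3 => x 0) := contDiff_piLp_apply (𝕜 := ℝ) 2
  have h1 : ContDiff ℝ ∞ (fun x : E 3 => x 1) := contDiff_piLp_apply (𝕜 := ℝ) 2
  have h2 : ContDiff ℝ ∞ (fun x : E 3 => x 2) := contDiff_piLp_apply (𝕜 := ℝ) 2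
  fin_cases i
  · exact h0.exp.mul h1.cos
  · exact h0.exp.mul h1.sin
  · exact h1.neg.exp.mul h0.cos
  · exact h1.neg.exp.mul h0.sin
  · exact h2

/-- the partial derivatives of `Phi`. -/
noncomputable def dPhi (x : E 3) (i : Fin 3) : E 5 :=
  ![!₂[Real.exp (x 0) * Real.cos (x 1), Real.exp (x 0) * Real.sin (x 1),
      -(Real.exp (-x 1) * Real.sin (x 0)), Real.exp (-x 1) * Real.cos (x 0), 0],
    !₂[-(Real.exp (x 0) * Real.sin (x 1)), Real.exp (x 0) * Real.cos (x 1),
      -(Real.exp (-x 1) * Real.cos (x 0)), -(Real.exp (-x 1) * Real.sin (x 0)), 0],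
    !₂[0, 0, 0, 0, 1]] i

lemma hasFDerivAt_coord {k : ℕ} (i : Fin k) (x : E k) :
    HasFDerivAt (fun y : E k => y i) (EuclideanSpace.proj i : E k →L[ℝ] ℝ) x :=
  (EuclideanSpace.proj i : E k →L[ℝ] ℝ).hasFDerivAt

lemma fderiv_Phi (x : E 3) (i : Fin 3) : fderiv ℝ Phi x (bv i) = dPhi x i := by
  have hd : DifferentiableAt ℝ Phi x := contDiff_Phi.differentiable (by simp) x
  ext a
  have h1 : (fderiv ℝ Phi x (bv i)) a = fderiv ℝ (fun y => Phi y a) x (bv i) := by
    have h2 := ((EuclideanSpace.proj a : E 5 →L[ℝ] ℝ).hasFDerivAt.comp x hd.hasFDerivAt).fderiv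
    have h3 : (fun y => Phi y a) = (EuclideanSpace.proj a : E 5 →L[ℝ] ℝ) ∘ Phi := rfl
    rw [h3, h2]
    rfl
  rw [h1]
  have k0 := hasFDerivAt_coord (0 : Fin 3) x
  have k1 := hasFDerivAt_coord (1 : Fin 3) x
  have k2 := hasFDerivAt_coord (2 : Fin 3) x
  fin_cases a
  · have e : HasFDerivAt (fun y : E 3 => Real.exp (y 0) * Real.cos (y 1)) _ x :=
      k0.exp.mul k1.cos
    show fderiv ℝ (fun y : E 3 => Real.exp (y 0) * Real.cos (y 1)) x (bv i) = _
    rw [e.fderiv]
    fin_cases i <;> simp [dPhi, mul_comm]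
  · have e : HasFDerivAt (fun y : E 3 => Real.exp (y 0) * Real.sin (y 1)) _ x :=
      k0.exp.mul k1.sin
    show fderiv ℝ (fun y : E 3 => Real.exp (y 0) * Real.sin (y 1)) x (bv i) = _
    rw [e.fderiv]
    fin_cases i <;> simp [dPhi, mul_comm]
  · have e : HasFDerivAt (fun y : E 3 => Real.exp (-y 1) * Real.cos (y 0)) _ x :=
      k1.neg.exp.mul k0.cos
    show fderiv ℝ (fun y : E 3 => Real.exp (-y 1) * Real.cos (y 0)) x (bv i) = _
    rw [e.fderiv]
    fin_cases i <;> simp [dPhi, mul_comm]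
  · have e : HasFDerivAt (fun y : E 3 => Real.exp (-y 1) * Real.sin (y 0)) _ x :=
      k1.neg.exp.mul k0.sin
    show fderiv ℝ (fun y : E 3 => Real.exp (-y 1) * Real.sin (y 0)) x (bv i) = _
    rw [e.fderiv]
    fin_cases i <;> simp [dPhi, mul_comm]
  · show fderiv ℝ (fun y : E 3 => y 2) x (bv i) = _
    rw [k2.fderiv]
    fin_cases i <;> simp [dPhi]

/-- the conformal factor. -/
noncomputable def lamPhi (x : E 3) : ℝ := Real.exp (2 * x 0) + Real.exp (-(2 * x 1))

lemma lamPhi_pos (x : E 3) : 0 < lamPhi x := add_pos (Real.exp_pos _) (Real.exp_pos _)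

lemma inner_dPhi (x : E 3) (i j : Fin 3) : inner ℝ (dPhi x i) (dPhi x j)
    = (Matrix.diagonal ![lamPhi x, lamPhi x, 1] : Matrix (Fin 3) (Fin 3) ℝ) i j := by
  have hs0 := Real.sin_sq_add_cos_sq (x 0)
  have hs1 := Real.sin_sq_add_cos_sq (x 1)
  have he0 : Real.exp (2 * x 0) = Real.exp (x 0) * Real.exp (x 0) := by
    rw [← Real.exp_add]; ring_nf
  have he1 : Real.exp (-(2 * x 1)) = Real.exp (-x 1) * Real.exp (-x 1) := by
    rw [← Real.exp_add]; ring_nf
  rw [PiLp.inner_apply]
  fin_cases i <;> fin_cases j <;> simp [dPhi, Fin.sum_univ_succ, lamPhi, he0, he1] <;> nlinarith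

lemma fderiv_Phi_injective (x : E 3) : Function.Injective (fderiv ℝ Phi x) := by
  rw [injective_iff_map_eq_zero]
  intro v hv
  have h2 : v = ∑ i, v i • bv i := by
    ext j
    simp [Finset.sum_apply, Pi.single_apply]
  have h3 : fderiv ℝ Phi x v = ∑ i, v i • dPhi x i := by
    conv_lhs => rw [h2]
    rw [map_sum]
    refine Finset.sum_congr rfl fun i _ => ?_
    rw [map_smul, fderiv_Phi]
  rw [h3] at hv
  have h4 : ∀ j, v j * (![lamPhi x, lamPhi x, 1] : Fin 3 → ℝ) j = 0 := by
    intro j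
    have h5 : inner ℝ (∑ i, v i • dPhi x i) (dPhi x j) = 0 := by rw [hv, inner_zero_left]
    rw [sum_inner] at h5
    simp only [real_inner_smul_left, inner_dPhi] at h5
    rw [Finset.sum_eq_single j] at h5
    · rwa [Matrix.diagonal_apply_eq] at h5
    · intro i _ hij
      rw [Matrix.diagonal_apply_ne _ hij, mul_zero]
    · intro h; exact absurd (Finset.mem_univ j) h
  have hl := (lamPhi_pos x).ne'
  ext j
  have := h4 j
  fin_cases j
  · exact (mul_eq_zero.mp this).resolve_right hl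
  · exact (mul_eq_zero.mp this).resolve_right hl
  · exact (mul_eq_zero.mp this).resolve_right one_ne_zero

/-- local form of `phi0`. -/
lemma phi0_symm_eventuallyEq (p : Mset) {x : E 3} (hx : x ∈ Mset) :
    (phi0 ∘ (chartAt (E 3) p).symm) =ᶠ[𝓝 x] Phi := by
  filter_upwards [c1_isOpen.mem_nhds hx] with y hy
  rw [Function.comp_apply, phi0, c1_symm_coe p hy]

lemma mfderiv_phi0_symm (p : Mset) {x : E 3} (hx : x ∈ Mset) (i : Fin 3) :
    mfderiv 𝓘(ℝ, E 3) 𝓘(ℝ, E 5) (phi0 ∘ (chartAt (E 3) p).symm) x (bv i) = dPhi x i := by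
  rw [mfderiv_eq_fderiv, (phi0_symm_eventuallyEq p hx).fderiv_eq]
  exact fderiv_Phi x i

theorem metricM_phi0' (p : Mset) {x : E 3} (hx : x ∈ Mset) :
    metricM 3 5 phi0 p x = Matrix.diagonal ![lamPhi x, lamPhi x, 1] := by
  ext i j
  rw [metricM, mfderiv_phi0_symm p hx, mfderiv_phi0_symm p hx]
  exact inner_dPhi x i j

theorem metricM_phi0 (p : Mset) {x : E 3} (hx : x ∈ Mset) :
    metricM 3 5 phi0 p x = Matrix.diagonal ![Real.exp (2 * x 0) + Real.exp (-(2 * x 1)),
      Real.exp (2 * x 0) + Real.exp (-(2 * x 1)), 1] :=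
  metricM_phi0' p hx

theorem isImm_phi0 : IsImm 3 5 phi0 := by
  refine ⟨?_, ?_⟩
  · exact (contDiff_Phi.contMDiff).comp contMDiff_subtype_val
  · intro p
    have hd : MDifferentiableAt 𝓘(ℝ, E 3) 𝓘(ℝ, E 5) phi0 p :=
      ((contDiff_Phi.contMDiff).comp contMDiff_subtype_val).mdifferentiable (by simp) p
    have h1 : mfderiv 𝓘(ℝ, E 3) 𝓘(ℝ, E 5) phi0 p = fderiv ℝ Phi p.1 := by
      rw [mfderiv, if_pos hd]
      simp only [writtenInExtChartAt, mfld_simps, fderivWithin_univ]
      exact (phi0_symm_eventuallyEq p p.2).fderiv_eq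
    rw [h1]
    exact fderiv_Phi_injective p.1

lemma det_metricM_phi0 (p : Mset) {x : E 3} (hx : x ∈ Mset) :
    √((metricM 3 5 phi0 p x).det) = lamPhi x := by
  rw [metricM_phi0' p hx, Matrix.det_diagonal]
  simp only [Fin.prod_univ_succ, Matrix.cons_val_zero, Matrix.cons_val_succ, Finset.univ_eq_empty,
    Finset.prod_empty, mul_one]
  exact Real.sqrt_mul_self (lamPhi_pos x).le

lemma continuous_lamPhi : Continuous lamPhi := by
  unfold lamPhi
  fun_prop

theorem exists_volume_phi0 : ∃ μ : Measure Mset, IsRiemVolume 3 5 phi0 μ := by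
  have hm : MeasurableSet (Mset : Set (E 3)) := c1_isOpen.measurableSet
  refine ⟨Measure.comap (Subtype.val : Mset → E 3)
    ((volume : Measure (E 3)).withDensity (fun x => ENNReal.ofReal (lamPhi x))), ?_⟩
  intro p s hs hst
  rw [target_Mset] at hst
  have hcomap : ∀ t : Set Mset, Measure.comap (Subtype.val : Mset → E 3)
      ((volume : Measure (E 3)).withDensity (fun x => ENNReal.ofReal (lamPhi x))) t
      = ((volume : Measure (E 3)).withDensity (fun x => ENNReal.ofReal (lamPhi x)))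
        ((Subtype.val : Mset → E 3) '' t) :=
    fun t => (MeasurableEmbedding.subtype_coe hm).comap_apply _ t
  rw [hcomap]
  have h1 : (Subtype.val : Mset → E 3) '' ((chartAt (E 3) p).symm '' s) = s := by
    rw [image_image]
    ext x
    constructor
    · rintro ⟨y, hy, rfl⟩
      have := c1_symm_coe p (hst hy)
      show (((chartAt (E 3) p).symm y : Mset) : E 3) ∈ s
      rw [this]
      exact hy
    · intro hx
      exact ⟨x, hx, c1_symm_coe p (hst hx)⟩
  rw [h1, withDensity_apply _ hs]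
  refine setLIntegral_congr_fun hs fun x hx => ?_
  show ENNReal.ofReal (lamPhi x) = ENNReal.ofReal (√((metricM 3 5 phi0 p x).det))
  rw [det_metricM_phi0 p (hst hx)]

theorem connectedSpace_Mset : ConnectedSpace Mset := by
  have hcs : ConnectedSpace ((Mset : Set (E 3)) : Type) ↔ ConnectedSpace Mset := Iff.rfl
  rw [← hcs, ← isConnected_iff_connectedSpace]
  refine ⟨⟨!₂[Real.log 2 / 2, 1, 0], ?_⟩, ?_⟩
  · have : 0 < Real.log 2 := Real.log_pos (by norm_num)
    show 0 < _ ∧ _ < Real.log 2 ∧ 0 < _ ∧ -1 < _ ∧ _ < 1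
    simp
    exact this
  · apply Convex.isPreconnected
    intro x hx y hy a b ha hb hab
    obtain ⟨h1, h2, h3, h4, h5⟩ := hx
    obtain ⟨k1, k2, k3, k4, k5⟩ := hy
    have hc : ∀ i : Fin 3, (a • x + b • y) i = a * x i + b * y i := fun i => by simp
    have key : ∀ (u v c : ℝ), c < u → c < v → c < a * u + b * v := by
      intro u v c hu hv
      rcases ha.eq_or_lt with rfl | ha
      · have : b = 1 := by linarith
        subst this; linarith
      · have := mul_lt_mul_of_pos_left hu ha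
        have := mul_le_mul_of_nonneg_left hv.le hb
        have h : c = a * c + b * c := by rw [← add_mul, hab, one_mul]
        linarith
    have key2 : ∀ (u v c : ℝ), u < c → v < c → a * u + b * v < c := by
      intro u v c hu hv
      have := key (-u) (-v) (-c) (by linarith) (by linarith)
      linarith
    refine ⟨?_, ?_, ?_, ?_, ?_⟩ <;> rw [hc]
    · exact key _ _ _ h1 k1
    · exact key2 _ _ _ h2 k2
    · exact key _ _ _ h3 k3
    · exact key _ _ _ h4 k4
    · exact key2 _ _ _ h5 k5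

end Pool.Agent.helper43.MS
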