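import Pool.Agent.helper91.MS.M0
import Pool.Agent.helper30.MS.V

set_option linter.all false

/-! the space of test functions, the Dirichlet form on it, the map to `L²` (for A2, S2, C5 of
MP_899162_gt). -/

open Bundle Manifold MeasureTheory Set Filter Topology
open scoped ContDiff ENNReal

namespace Pool.Agent.helper43.MS

section TestSpace

variable {m n : ℕ} {M : Type*} [TopologicalSpace M] [ChartedSpace (E m) M]

lemma IsTest.mdifferentiableAt {u : M → ℝ} (hu : IsTest m u) (p : M) :
    MDifferentiableAt 𝓘(ℝ, E m) 𝓘(ℝ, ℝ) u p :=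
  hu.1.mdifferentiable (by simp) p

lemma IsTest.continuous {u : M → ℝ} (hu : IsTest m u) : Continuous u := hu.1.continuous

lemma IsTest.zero : IsTest m (0 : M → ℝ) := ⟨contMDiff_const, HasCompactSupport.zero⟩

lemma IsTest.add {u v : M → ℝ} (hu : IsTest m u) (hv : IsTest m v) : IsTest m (u + v) :=
  ⟨hu.1.add hv.1, hu.2.add hv.2⟩

lemma IsTest.smul {u : M → ℝ} (hu : IsTest m u) (c : ℝ) : IsTest m (c • u) := by
  refine ⟨?_, ?_⟩
  · exact (contMDiff_const : ContMDiff 𝓘(ℝ, E m) 𝓘(ℝ, ℝ) ∞ (fun _ : M => c)).smul hu.1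
  · exact hu.2.smul_left (f := fun _ => c)

variable (m M) in
/-- the space of test functions. -/
def testSpace : Submodule ℝ (M → ℝ) where
  carrier := {u | IsTest m u}
  add_mem' hu hv := IsTest.add hu hv
  zero_mem' := IsTest.zero
  smul_mem' c _ hu := IsTest.smul hu c

lemma testSpace_isTest (u : testSpace m M) : IsTest m (u : M → ℝ) := u.2

lemma diffM_add {u v : M → ℝ} {p : M} (hu : MDifferentiableAt 𝓘(ℝ, E m) 𝓘(ℝ, ℝ) u p)
    (hv : MDifferentiableAt 𝓘(ℝ, E m) 𝓘(ℝ, ℝ) v p) (i : Fin m) :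
    diffM m (u + v) p i = diffM m u p i + diffM m v p i := by
  rw [diffM, mfderiv_add hu hv]
  rfl

lemma diffM_smul {u : M → ℝ} {p : M} (hu : MDifferentiableAt 𝓘(ℝ, E m) 𝓘(ℝ, ℝ) u p)
    (c : ℝ) (i : Fin m) :
    diffM m (c • u) p i = c * diffM m u p i := by
  rw [diffM, const_smul_mfderiv hu c]
  rfl

variable [IsManifold 𝓘(ℝ, E m) ∞ M]
  {N : Type*} [TopologicalSpace N] [ChartedSpace (E n) N] [IsManifold 𝓘(ℝ, E n) ∞ N]
  [RiemannianBundle (fun q : N => TangentSpace 𝓘(ℝ, E n) q)]

lemma gradInner_add_left {φ : M → N} {u v w : M → ℝ} {p : M}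
    (hu : MDifferentiableAt 𝓘(ℝ, E m) 𝓘(ℝ, ℝ) u p) (hv : MDifferentiableAt 𝓘(ℝ, E m) 𝓘(ℝ, ℝ) v p) :
    gradInner m n φ (u + v) w p = gradInner m n φ u w p + gradInner m n φ v w p := by
  simp only [gradInner, diffM_add hu hv, ← Finset.sum_add_distrib]
  refine Finset.sum_congr rfl fun i _ => Finset.sum_congr rfl fun j _ => ?_
  ring

lemma gradInner_smul_left {φ : M → N} {u w : M → ℝ} {p : M}
    (hu : MDifferentiableAt 𝓘(ℝ, E m) 𝓘(ℝ, ℝ) u p) (c : ℝ) :
    gradInner m n φ (c • u) w p = c * gradInner m n φ u w p := by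
  simp only [gradInner, diffM_smul hu, Finset.mul_sum]
  refine Finset.sum_congr rfl fun i _ => Finset.sum_congr rfl fun j _ => ?_
  ring

lemma gram_symm (φ : M → N) (p : M) : (gram m n φ p).transpose = gram m n φ p := by
  ext i j
  rw [Matrix.transpose_apply, gram, gram, real_inner_comm]

lemma gradInner_symm (φ : M → N) (u v : M → ℝ) (p : M) :
    gradInner m n φ u v p = gradInner m n φ v u p := by
  have h1 : ((gram m n φ p)⁻¹).transpose = (gram m n φ p)⁻¹ := by
    rw [Matrix.transpose_nonsing_inv, gram_symm]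
  rw [gradInner, gradInner, Finset.sum_comm]
  refine Finset.sum_congr rfl fun i _ => Finset.sum_congr rfl fun j _ => ?_
  have h2 : (gram m n φ p)⁻¹ j i = (gram m n φ p)⁻¹ i j := by
    conv_lhs => rw [← h1]
    rw [Matrix.transpose_apply]
  rw [h2]
  ring

lemma dirichlet_symm [MeasurableSpace M] (φ : M → N) (μ : Measure M) (u v : M → ℝ) :
    dirichlet m n φ μ u v = dirichlet m n φ μ v u := by
  rw [dirichlet, dirichlet]
  congr 1
  funext p
  exact gradInner_symm φ u v p

lemma diffM_eq_zero {u : M → ℝ} {p : M} (hp : p ∉ tsupport u) (i : Fin m) : diffM m u p i = 0 := by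
  have h1 : u =ᶠ[𝓝 p] (fun _ => (0 : ℝ)) := notMem_tsupport_iff_eventuallyEq.mp hp
  rw [diffM, h1.mfderiv_eq, mfderiv_const]
  rfl

lemma hasCompactSupport_gradInner [T2Space M] {φ : M → N} {u v : M → ℝ} (hu : HasCompactSupport u) :
    HasCompactSupport (gradInner m n φ u v) := by
  refine HasCompactSupport.intro hu fun p hp => ?_
  simp only [gradInner, diffM_eq_zero hp]
  simp

variable [IsContMDiffRiemannianBundle 𝓘(ℝ, E n) ∞ (E n) (fun q : N => TangentSpace 𝓘(ℝ, E n) q)]

lemma gradInner_self_nonneg {φ : M → N} (h : IsImm m n φ) (u : M → ℝ) (p : M) :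
    0 ≤ gradInner m n φ u u p := by
  have h1 := (gram_posDef h p).inv
  have h2 := h1.posSemidef.dotProduct_mulVec_nonneg (fun i => diffM m u p i)
  rw [gradInner]
  refine h2.trans (le_of_eq ?_)
  rw [dotProduct]
  refine Finset.sum_congr rfl fun i _ => ?_
  rw [Matrix.mulVec, dotProduct, Finset.mul_sum]
  refine Finset.sum_congr rfl fun j _ => ?_
  simp only [Pi.star_apply, star_trivial]
  ring

/-- `gradInner` in a chart is continuous, hence so is `gradInner`. -/
lemma continuous_gradInner {φ : M → N} (h : IsImm m n φ) {u v : M → ℝ}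
    (hu : ContMDiff 𝓘(ℝ, E m) 𝓘(ℝ, ℝ) 1 u) (hv : ContMDiff 𝓘(ℝ, E m) 𝓘(ℝ, ℝ) 1 v) :
    Continuous (gradInner m n φ u v) := by
  rw [continuous_iff_continuousAt]
  intro p
  set e := chartAt (E m) p with he
  have hpd : ∀ (w : M → ℝ), ContMDiff 𝓘(ℝ, E m) 𝓘(ℝ, ℝ) 1 w → ∀ i : Fin m,
      ContinuousOn (fun x => pd i (w ∘ e.symm) x) e.target := by
    intro w hw i
    have h1 : ContDiffOn ℝ 1 (w ∘ e.symm) e.target := by
      have h2 : ContMDiffOn 𝓘(ℝ, E m) 𝓘(ℝ, ℝ) 1 (w ∘ e.symm) e.target :=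
        hw.comp_contMDiffOn ((contMDiffOn_chart_symm (n := ∞) (x := p)).of_le (by simp))
      exact contMDiffOn_iff_contDiffOn.mp h2
    have h3 : ContinuousOn (fderiv ℝ (w ∘ e.symm)) e.target :=
      h1.continuousOn_fderiv_of_isOpen e.open_target le_rfl
    exact h3.clm_apply continuousOn_const
  have hg : ContinuousOn (fun x => metricM m n φ p x) e.target := by
    refine continuousOn_pi.mpr fun i => continuousOn_pi.mpr fun j => ?_
    exact (metricM_contDiffOn h p i j).continuousOn
  have hginv : ∀ i j, ContinuousOn (fun x => (metricM m n φ p x)⁻¹ i j) e.target := by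
    intro i j x hx
    have h1 : (metricM m n φ p x).det ≠ 0 := (metricM_posDef h hx).det_pos.ne'
    have h2 : ContinuousAt (Ring.inverse : ℝ → ℝ) ((metricM m n φ p x).det) := by
      have : (Ring.inverse : ℝ → ℝ) = Inv.inv := by
        funext y; exact Ring.inverse_eq_inv y
      rw [this]
      exact continuousAt_inv₀ h1
    have h35 : ContinuousWithinAt (fun x => (metricM m n φ p x).det) e.target x :=
      (continuous_id.matrix_det.comp_continuousOn hg) x hx
    have h3 : ContinuousWithinAt (fun x => Ring.inverse ((metricM m n φ p x).det)) e.target x :=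
      ContinuousAt.comp_continuousWithinAt (f := fun x => (metricM m n φ p x).det) h2 h35
    have h4 : ContinuousWithinAt (fun x => (metricM m n φ p x).adjugate i j) e.target x :=
      (((continuous_id.matrix_adjugate).matrix_elem i j).comp_continuousOn hg) x hx
    have h5 : (fun x => (metricM m n φ p x)⁻¹ i j)
        = fun x => Ring.inverse ((metricM m n φ p x).det) * (metricM m n φ p x).adjugate i j := by
      funext y
      rw [Matrix.inv_def]
      rfl
    rw [h5]
    exact h3.mul h4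
  have hloc : ContinuousOn (fun x => gradInner m n φ u v (e.symm x)) e.target := by
    have h1 : ∀ x ∈ e.target, gradInner m n φ u v (e.symm x) =
      ∑ i, ∑ j, (metricM m n φ p x)⁻¹ i j *
        pd i (u ∘ e.symm) x * pd j (v ∘ e.symm) x := by
      intro x hx
      exact gradInner_chart h hx (hu.mdifferentiable (by simp) _) (hv.mdifferentiable (by simp) _)
    refine ContinuousOn.congr ?_ h1
    refine continuousOn_finset_sum _ fun i _ => continuousOn_finset_sum _ fun j _ => ?_
    exact ((hginv i j).mul (hpd u hu i)).mul (hpd v hv j)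
  have hpe : p ∈ e.source := mem_chart_source _ p
  have h6 : ContinuousAt (fun x => gradInner m n φ u v (e.symm x)) (e p) :=
    hloc.continuousAt (e.open_target.mem_nhds (e.map_source hpe))
  have h7 : ContinuousAt ((fun x => gradInner m n φ u v (e.symm x)) ∘ e) p :=
    ContinuousAt.comp h6 (e.continuousAt hpe)
  refine h7.congr ?_
  filter_upwards [e.open_source.mem_nhds hpe] with y hy
  simp [e.left_inv hy]

variable [T2Space M] [SecondCountableTopology M] [MeasurableSpace M] [BorelSpace M]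

lemma integrable_of_continuous_compactSupport {φ : M → N} (h : IsImm m n φ) {μ : Measure M}
    (hμ : IsRiemVolume m n φ μ) {f : M → ℝ} (hf : Continuous f) (hc : HasCompactSupport f) :
    Integrable f μ := by
  haveI := hμ.isLocallyFinite h
  exact hf.integrable_of_hasCompactSupport hc

lemma integrable_gradInner {φ : M → N} (h : IsImm m n φ) {μ : Measure M}
    (hμ : IsRiemVolume m n φ μ) {u v : M → ℝ} (hu : IsTest m u) (hv : IsTest m v) :
    Integrable (gradInner m n φ u v) μ :=
  integrable_of_continuous_compactSupport h hμ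
    (continuous_gradInner h (hu.1.of_le (by simp)) (hv.1.of_le (by simp)))
    (hasCompactSupport_gradInner hu.2)

lemma dirichlet_add_left {φ : M → N} (h : IsImm m n φ) {μ : Measure M}
    (hμ : IsRiemVolume m n φ μ) {u v w : M → ℝ} (hu : IsTest m u) (hv : IsTest m v)
    (hw : IsTest m w) :
    dirichlet m n φ μ (u + v) w = dirichlet m n φ μ u w + dirichlet m n φ μ v w := by
  rw [dirichlet, dirichlet, dirichlet,
    ← integral_add (integrable_gradInner h hμ hu hw) (integrable_gradInner h hμ hv hw)]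
  congr 1
  funext p
  exact gradInner_add_left (hu.mdifferentiableAt p) (hv.mdifferentiableAt p)

lemma dirichlet_smul_left {φ : M → N} {μ : Measure M}
    {u w : M → ℝ} (hu : IsTest m u) (c : ℝ) :
    dirichlet m n φ μ (c • u) w = c * dirichlet m n φ μ u w := by
  rw [dirichlet, dirichlet, ← integral_const_mul]
  congr 1
  funext p
  exact gradInner_smul_left (hu.mdifferentiableAt p) c

lemma dirichlet_self_nonneg {φ : M → N} (h : IsImm m n φ) (μ : Measure M) (u : M → ℝ) :
    0 ≤ dirichlet m n φ μ u u :=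
  integral_nonneg fun p => gradInner_self_nonneg h u p

/-- the Dirichlet form as a bilinear form on the test functions. -/
noncomputable def testQ {φ : M → N} (h : IsImm m n φ) {μ : Measure M}
    (hμ : IsRiemVolume m n φ μ) : testSpace m M →ₗ[ℝ] testSpace m M →ₗ[ℝ] ℝ :=
  LinearMap.mk₂ ℝ (fun u v => dirichlet m n φ μ (u : M → ℝ) (v : M → ℝ))
    (fun u v w => dirichlet_add_left h hμ u.2 v.2 w.2)
    (fun c u w => dirichlet_smul_left u.2 c)
    (fun u v w => by
      rw [dirichlet_symm, dirichlet_symm φ μ (u : M → ℝ) v, dirichlet_symm φ μ (u : M → ℝ) w]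
      exact dirichlet_add_left h hμ v.2 w.2 u.2)
    (fun c u w => by
      rw [dirichlet_symm, dirichlet_symm φ μ (u : M → ℝ) w]
      exact dirichlet_smul_left w.2 c)

lemma testQ_apply {φ : M → N} (h : IsImm m n φ) {μ : Measure M}
    (hμ : IsRiemVolume m n φ μ) (u v : testSpace m M) :
    testQ h hμ u v = dirichlet m n φ μ (u : M → ℝ) (v : M → ℝ) := rfl

lemma testQ_symm {φ : M → N} (h : IsImm m n φ) {μ : Measure M}
    (hμ : IsRiemVolume m n φ μ) (u v : testSpace m M) : testQ h hμ u v = testQ h hμ v u :=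
  dirichlet_symm φ μ _ _

lemma testQ_nonneg {φ : M → N} (h : IsImm m n φ) {μ : Measure M}
    (hμ : IsRiemVolume m n φ μ) (u : testSpace m M) : 0 ≤ testQ h hμ u u :=
  dirichlet_self_nonneg h μ _

lemma IsTest.memLp {φ : M → N} (h : IsImm m n φ) {μ : Measure M}
    (hμ : IsRiemVolume m n φ μ) {u : M → ℝ} (hu : IsTest m u) : MemLp u 2 μ := by
  haveI := hμ.isLocallyFinite h
  exact hu.continuous.memLp_of_hasCompactSupport hu.2

/-- the inclusion of the test functions in `L²`. -/
noncomputable def testJ {φ : M → N} (h : IsImm m n φ) {μ : Measure M}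
    (hμ : IsRiemVolume m n φ μ) : testSpace m M →ₗ[ℝ] Lp ℝ 2 μ where
  toFun u := (IsTest.memLp h hμ u.2).toLp u
  map_add' u v := MemLp.toLp_add (IsTest.memLp h hμ u.2) (IsTest.memLp h hμ v.2)
  map_smul' c u := MemLp.toLp_const_smul c (IsTest.memLp h hμ u.2)

lemma testJ_coeFn {φ : M → N} (h : IsImm m n φ) {μ : Measure M}
    (hμ : IsRiemVolume m n φ μ) (u : testSpace m M) :
    (testJ h hμ u : M → ℝ) =ᵐ[μ] (u : M → ℝ) :=
  MemLp.coeFn_toLp (IsTest.memLp h hμ u.2)

lemma inner_testJ {φ : M → N} (h : IsImm m n φ) {μ : Measure M}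
    (hμ : IsRiemVolume m n φ μ) (f : Lp ℝ 2 μ) (u : testSpace m M) :
    inner ℝ f (testJ h hμ u) = ∫ p, f p * (u : M → ℝ) p ∂μ := by
  rw [L2.inner_def]
  refine integral_congr_ae ?_
  filter_upwards [testJ_coeFn h hμ u] with p hp
  rw [hp]
  simp [mul_comm]

lemma inner_testJ_testJ {φ : M → N} (h : IsImm m n φ) {μ : Measure M}
    (hμ : IsRiemVolume m n φ μ) (v u : testSpace m M) :
    inner ℝ (testJ h hμ v) (testJ h hμ u) = ∫ p, (v : M → ℝ) p * (u : M → ℝ) p ∂μ := by
  rw [inner_testJ]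
  refine integral_congr_ae ?_
  filter_upwards [testJ_coeFn h hμ v] with p hp
  rw [hp]

lemma norm_testJ_sq {φ : M → N} (h : IsImm m n φ) {μ : Measure M}
    (hμ : IsRiemVolume m n φ μ) (u : testSpace m M) :
    ‖testJ h hμ u‖ ^ 2 = ∫ p, (u : M → ℝ) p ^ 2 ∂μ := by
  rw [← real_inner_self_eq_norm_sq, inner_testJ_testJ]
  congr 1
  funext p
  ring

lemma norm_testJ_sub {φ : M → N} (h : IsImm m n φ) {μ : Measure M}
    (hμ : IsRiemVolume m n φ μ) (u : testSpace m M) (f : Lp ℝ 2 μ) :
    ‖testJ h hμ u - f‖ = (eLpNorm (fun p => (u : M → ℝ) p - f p) 2 μ).toReal := by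
  rw [Lp.norm_def]
  congr 1
  refine eLpNorm_congr_ae ?_
  filter_upwards [Lp.coeFn_sub (testJ h hμ u) f, testJ_coeFn h hμ u] with p h1 h2
  rw [h1, Pi.sub_apply, h2]

lemma enorm_testJ_sub {φ : M → N} (h : IsImm m n φ) {μ : Measure M}
    (hμ : IsRiemVolume m n φ μ) (u : testSpace m M) (f : Lp ℝ 2 μ) :
    ENNReal.ofReal ‖testJ h hμ u - f‖ = eLpNorm (fun p => (u : M → ℝ) p - f p) 2 μ := by
  rw [norm_testJ_sub, ENNReal.ofReal_toReal]
  exact ((IsTest.memLp h hμ u.2).sub (Lp.memLp f)).eLpNorm_ne_top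

/-- `IsFriedrichsEigen` in terms of the abstract data. -/
lemma isFriedrichsEigen_iff {φ : M → N} (h : IsImm m n φ) {μ : Measure M}
    (hμ : IsRiemVolume m n φ μ) (f : Lp ℝ 2 μ) (lam : ℝ) :
    IsFriedrichsEigen m n φ μ f lam ↔
      ∃ u : ℕ → testSpace m M, Tendsto (fun k => testJ h hμ (u k)) atTop (𝓝 f) ∧
        Tendsto (fun kl : ℕ × ℕ => testQ h hμ (u kl.1 - u kl.2) (u kl.1 - u kl.2))
          (atTop ×ˢ atTop) (𝓝 0) ∧
        ∀ v, Tendsto (fun k => testQ h hμ (u k) v) atTop
          (𝓝 (lam * inner ℝ f (testJ h hμ v))) := by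
  have key : ∀ u : ℕ → testSpace m M, Tendsto (fun k => testJ h hμ (u k)) atTop (𝓝 f) ↔
      Tendsto (fun k => eLpNorm (fun p => (u k : M → ℝ) p - f p) 2 μ) atTop (𝓝 0) := by
    intro u
    rw [tendsto_iff_norm_sub_tendsto_zero]
    constructor
    · intro h1
      have h2 := ENNReal.tendsto_ofReal h1
      rw [ENNReal.ofReal_zero] at h2
      refine h2.congr fun k => ?_
      exact enorm_testJ_sub h hμ (u k) f
    · intro h1
      have h2 := (ENNReal.tendsto_toReal ENNReal.zero_ne_top).comp h1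
      rw [ENNReal.toReal_zero] at h2
      refine h2.congr fun k => ?_
      exact (norm_testJ_sub h hμ (u k) f).symm
  constructor
  · rintro ⟨u, hu, h1, h2, h3⟩
    refine ⟨fun k => ⟨u k, hu k⟩, (key _).mpr h1, h2, ?_⟩
    intro v
    rw [inner_testJ]
    exact h3 v v.2
  · rintro ⟨u, h1, h2, h3⟩
    refine ⟨fun k => u k, fun k => (u k).2, (key u).mp h1, h2, ?_⟩
    intro v hv
    have := h3 ⟨v, hv⟩
    rw [inner_testJ] at this
    exact this

end TestSpace

end Pool.Agent.helper43.MS
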